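import Pool.Agent.H21.NP.Cyc

/-!
# Correlations on abelian groups of order `ℓ ^ 2`
-/

set_option autoImplicit false
set_option linter.unusedSectionVars false

namespace Pool.Agent.H21.NQ

open Polynomial Pool.Agent.H21.NP

/-- A rational linear combination of the powers of a primitive root of unity of order `ℓ ^ 2`. -/
theorem periodic_of_root {ℓ : ℕ} [hℓ : Fact ℓ.Prime] {ζ : ℂ} (hζ : IsPrimitiveRoot ζ (ℓ ^ 2))
    (b : ℕ → ℚ) (h : ∑ k ∈ Finset.range (ℓ ^ 2), (b k : ℂ) * ζ ^ k = 0) :
    ∀ k < ℓ, ∀ j < ℓ, b (k + j * ℓ) = b k := by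
  have hℓ0 : 0 < ℓ := hℓ.out.pos
  have hg0 : 0 < ℓ ^ 2 := by positivity
  let Q : ℚ[X] := ∑ k ∈ Finset.range (ℓ ^ 2), C (b k) * X ^ k
  have hQ : aeval ζ Q = 0 := by
    simp only [Q, map_sum, map_mul, aeval_C, map_pow, aeval_X]
    exact h
  have hcoef : ∀ k < ℓ ^ 2, Q.coeff k = b k := by
    intro k hk
    simp only [Q, finset_sum_coeff, coeff_C_mul, coeff_X_pow, mul_ite, mul_one, mul_zero]
    rw [Finset.sum_ite_eq, if_pos (Finset.mem_range.2 hk)]
  have hdeg : Q.natDegree ≤ ℓ ^ 2 - 1 := by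
    apply natDegree_sum_le_of_forall_le
    intro k hk
    have := Finset.mem_range.1 hk
    exact (natDegree_C_mul_X_pow_le _ _).trans (by omega)
  have hlt : ∀ k < ℓ, ∀ j < ℓ, k + j * ℓ < ℓ ^ 2 := by
    intro k hk j hj
    nlinarith
  have hdvd : cyclotomic (ℓ ^ 2) ℚ ∣ Q := by
    rw [cyclotomic_eq_minpoly_rat hζ hg0]
    exact minpoly.dvd ℚ ζ hQ
  obtain ⟨R, hR⟩ := hdvd
  by_cases hQ0 : Q = 0
  · intro k hk j hj
    have h2 := hlt k hk 0 hℓ0
    rw [zero_mul, add_zero] at h2
    rw [← hcoef _ (hlt k hk j hj), ← hcoef k h2, hQ0, coeff_zero, coeff_zero]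
  have hR0 : R ≠ 0 := by
    rintro rfl
    exact hQ0 (by rw [hR, mul_zero])
  have hRdeg : R.natDegree < ℓ := by
    have h1 : Q.natDegree = (cyclotomic (ℓ ^ 2) ℚ).natDegree + R.natDegree := by
      rw [hR]
      exact natDegree_mul (cyclotomic_ne_zero _ _) hR0
    rw [natDegree_cyclotomic, Nat.totient_prime_pow hℓ.out (by norm_num : 0 < 2)] at h1
    have h2 : ℓ ^ (2 - 1) * (ℓ - 1) = ℓ ^ 2 - ℓ := by
      rw [show (2 - 1 : ℕ) = 1 from rfl, pow_one, Nat.mul_sub, mul_one, pow_two]
    rw [h2] at h1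
    have h3 : ℓ ≤ ℓ ^ 2 := Nat.le_self_pow (by norm_num) ℓ
    omega
  have hval : ∀ k < ℓ, ∀ j < ℓ, b (k + j * ℓ) = R.coeff k := by
    intro k hk j hj
    have e1 : cyclotomic (ℓ ^ 2) ℚ = ∑ i ∈ Finset.range ℓ, (X ^ ℓ ^ 1) ^ i :=
      cyclotomic_prime_pow_eq_geom_sum (n := 1) hℓ.out
    rw [← hcoef _ (hlt k hk j hj), hR, e1, Finset.sum_mul, finset_sum_coeff]
    have e2 : ∀ i ∈ Finset.range ℓ, (((X : ℚ[X]) ^ ℓ ^ 1) ^ i * R).coeff (k + j * ℓ) =
        if i = j then R.coeff k else 0 := by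
      intro i hi
      rw [pow_one, ← pow_mul, coeff_X_pow_mul']
      split_ifs with h1 h2 h2
      · subst h2
        congr 1
        rw [mul_comm ℓ i]
        omega
      · apply coeff_eq_zero_of_natDegree_lt
        have h3 : i < j := by
          by_contra hno
          have h4 : j + 1 ≤ i := by omega
          nlinarith
        have h4 : ℓ + ℓ * i ≤ k + j * ℓ := by nlinarith
        omega
      · subst h2
        exact absurd (by rw [mul_comm]; omega) h1
      · rfl
    rw [Finset.sum_congr rfl e2, Finset.sum_ite_eq', if_pos (Finset.mem_range.2 hj)]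
  intro k hk j hj
  rw [hval k hk j hj]
  have h2 := hval k hk 0 hℓ0
  rw [zero_mul, add_zero] at h2
  rw [h2]

section

variable {B : Type*} [AddCommGroup B] [Fintype B]

/-- A nonzero function has a nonzero Fourier coefficient. -/
theorem exists_char (c : B → ℚ) (hc : c ≠ 0) :
    ∃ χ : AddChar B ℂ, ∑ b, (c b : ℂ) * χ (-b) ≠ 0 := by
  classical
  by_contra hno
  push Not at hno
  apply hc
  funext a
  have h1 : ∑ χ : AddChar B ℂ, (∑ b, (c b : ℂ) * χ (-b)) * χ a = 0 :=
    Finset.sum_eq_zero fun χ _ => by rw [hno χ, zero_mul]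
  have h2 : ∀ χ : AddChar B ℂ, (∑ b, (c b : ℂ) * χ (-b)) * χ a = ∑ b, (c b : ℂ) * χ (a - b) := by
    intro χ
    rw [Finset.sum_mul]
    refine Finset.sum_congr rfl fun b _ => ?_
    rw [mul_assoc, ← AddChar.map_add_eq_mul]
    congr 2
    abel
  rw [Finset.sum_congr rfl fun χ _ => h2 χ, Finset.sum_comm] at h1
  have h3 : ∀ b : B, ∑ χ : AddChar B ℂ, (c b : ℂ) * χ (a - b) =
      if b = a then (Fintype.card B : ℂ) * c b else 0 := by
    intro b
    rw [← Finset.mul_sum, AddChar.sum_apply_eq_ite]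
    by_cases h : b = a
    · rw [if_pos h, if_pos (by rw [h, sub_self]), mul_comm]
    · rw [if_neg h, if_neg (fun h' => h (sub_eq_zero.1 h').symm), mul_zero]
  rw [Finset.sum_congr rfl fun b _ => h3 b, Finset.sum_ite_eq', if_pos (Finset.mem_univ _)] at h1
  have hcard : (Fintype.card B : ℂ) ≠ 0 := by
    exact_mod_cast Fintype.card_ne_zero
  have h4 := (mul_eq_zero.1 h1).resolve_left hcard
  exact_mod_cast h4

/-- Correlations and characters. -/
theorem char_corr (c w : B → ℚ) (χ : AddChar B ℂ) (hχ : ∑ b, (c b : ℂ) * χ (-b) ≠ 0)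
    (h : ∀ a, ∑ b, c b * w (a + b) = 0) : ∑ d, (w d : ℂ) * χ d = 0 := by
  have hprod : (∑ b, (c b : ℂ) * χ (-b)) * (∑ d, (w d : ℂ) * χ d) = 0 := by
    rw [Finset.sum_mul]
    have h1 : ∀ b : B, (c b : ℂ) * χ (-b) * ∑ d, (w d : ℂ) * χ d =
        ∑ a, χ a * ((c b * w (a + b) : ℚ) : ℂ) := by
      intro b
      rw [← Equiv.sum_comp (Equiv.addRight b), Finset.mul_sum]
      refine Finset.sum_congr rfl fun a _ => ?_
      rw [Equiv.coe_addRight, AddChar.map_add_eq_mul, AddChar.map_neg_eq_inv]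
      have h0 : χ b ≠ 0 := by
        intro h'
        have h2 := AddChar.map_zero_eq_one χ
        rw [← add_neg_cancel b, AddChar.map_add_eq_mul, h', zero_mul] at h2
        exact zero_ne_one h2
      push_cast
      field_simp
    rw [Finset.sum_congr rfl fun b _ => h1 b, Finset.sum_comm]
    refine Finset.sum_eq_zero fun a _ => ?_
    rw [← Finset.mul_sum, ← Rat.cast_sum, h a, Rat.cast_zero, mul_zero]
  exact (mul_eq_zero.1 hprod).resolve_left hχ

theorem char_ne_zero (χ : AddChar B ℂ) (b : B) : χ b ≠ 0 := by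
  intro h'
  have h2 := AddChar.map_zero_eq_one χ
  rw [← add_neg_cancel b, AddChar.map_add_eq_mul, h', zero_mul] at h2
  exact zero_ne_one h2

/-- **The three kinds of characters** of a group of order `ℓ ^ 2`. -/
theorem char_cases {ℓ : ℕ} [hℓ : Fact ℓ.Prime] (hB : Fintype.card B = ℓ ^ 2) (χ : AddChar B ℂ) :
    (∀ b, χ b = 1) ∨
    (∃ κ : B → Fin ℓ, (∀ i, Fintype.card {b // κ b = i} = ℓ) ∧
      ∀ w : B → ℚ, ∑ d, (w d : ℂ) * χ d = 0 → ∃ u, ∀ i, ∑ b : {b // κ b = i}, w b = u) ∨
    ∃ h : B, h ≠ 0 ∧ ∀ w : B → ℚ, ∑ d, (w d : ℂ) * χ d = 0 → ∀ a, w (a + h) = w a := by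
  classical
  have hℓ0 : 0 < ℓ := hℓ.out.pos
  have hℓ1 : 1 < ℓ := hℓ.out.one_lt
  have hg0 : 0 < ℓ ^ 2 := by positivity
  by_cases htriv : ∀ b, χ b = 1
  · exact Or.inl htriv
  right
  by_cases hinj : ∀ b, χ b = 1 → b = 0
  · -- injective
    right
    let ζ : ℂ := Complex.exp (2 * Real.pi * Complex.I / (ℓ ^ 2 : ℕ))
    have hζ : IsPrimitiveRoot ζ (ℓ ^ 2) := Complex.isPrimitiveRoot_exp _ hg0.ne'
    have h1 : ∀ b, ∃ k < ℓ ^ 2, ζ ^ k = χ b := by
      intro b
      refine hζ.eq_pow_of_pow_eq_one ?_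
      rw [← AddChar.map_nsmul_eq_pow, ← hB, card_nsmul_eq_zero, AddChar.map_zero_eq_one]
    choose k hk hkχ using h1
    have hki : Function.Injective k := by
      intro a b hab
      have h2 : χ a = χ b := by rw [← hkχ, ← hkχ, hab]
      have h3 : χ (a - b) = 1 := by
        have h4 : χ (a - b) * χ b = χ a := by
          rw [← AddChar.map_add_eq_mul, sub_add_cancel]
        rw [h2] at h4
        exact mul_right_cancel₀ (char_ne_zero χ b) (h4.trans (one_mul _).symm)
      exact sub_eq_zero.1 (hinj _ h3)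
    have hks : ∀ m < ℓ ^ 2, ∃ b, k b = m := by
      intro m hm
      have h2 : Finset.univ.image k = Finset.range (ℓ ^ 2) := by
        apply Finset.eq_of_subset_of_card_le
        · intro x hx
          obtain ⟨b, -, rfl⟩ := Finset.mem_image.1 hx
          exact Finset.mem_range.2 (hk b)
        · rw [Finset.card_range, Finset.card_image_of_injective _ hki, Finset.card_univ, hB]
      have h3 := Finset.mem_range.2 hm
      rw [← h2] at h3
      obtain ⟨b, -, hb⟩ := Finset.mem_image.1 h3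
      exact ⟨b, hb⟩
    obtain ⟨h, hh⟩ := hks ℓ (by nlinarith)
    have hk0 : k 0 = 0 := by
      have h2 := hkχ 0
      rw [AddChar.map_zero_eq_one] at h2
      have h3 : ζ ^ k 0 = ζ ^ 0 := by rw [h2, pow_zero]
      exact hζ.pow_inj (hk 0) hg0 h3
    refine ⟨h, ?_, ?_⟩
    · rintro rfl
      omega
    · intro w hw a
      let V : ℕ → ℚ := fun m => ∑ b : B, if k b = m then w b else 0
      have hV : ∀ b, V (k b) = w b := by
        intro b
        have h2 : ∀ b', (if k b' = k b then w b' else 0) = if b' = b then w b' else 0 := by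
          intro b'
          by_cases h3 : b' = b
          · subst h3
            rw [if_pos rfl, if_pos rfl]
          · rw [if_neg h3, if_neg fun h4 => h3 (hki h4)]
        simp only [V]
        rw [Finset.sum_congr rfl fun b' _ => h2 b', Finset.sum_ite_eq', if_pos (Finset.mem_univ _)]
      have hsum : ∑ m ∈ Finset.range (ℓ ^ 2), (V m : ℂ) * ζ ^ m = 0 := by
        rw [← hw]
        have h2 : ∀ d, (w d : ℂ) * χ d = (V (k d) : ℂ) * ζ ^ k d := by
          intro d
          rw [hV, hkχ]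
        rw [Finset.sum_congr rfl fun d _ => h2 d]
        symm
        refine Finset.sum_bij (fun d _ => k d) (fun d _ => Finset.mem_range.2 (hk d))
          (fun a _ b _ hab => hki hab) (fun m hm => ?_) (fun d _ => rfl)
        obtain ⟨b, hb⟩ := hks m (Finset.mem_range.1 hm)
        exact ⟨b, Finset.mem_univ _, hb⟩
      have hper := periodic_of_root hζ V hsum
      have hperiod : ∀ m < ℓ ^ 2, V m = V (m % ℓ) := by
        intro m hm
        have h2 : m / ℓ < ℓ := by
          rw [Nat.div_lt_iff_lt_mul hℓ0, ← pow_two]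
          exact hm
        have h3 := hper (m % ℓ) (Nat.mod_lt _ hℓ0) (m / ℓ) h2
        rw [← h3]
        congr 1
        rw [mul_comm]
        exact (Nat.mod_add_div m ℓ).symm
      rw [← hV, ← hV, hperiod _ (hk _), hperiod _ (hk a)]
      congr 1
      -- the index of a sum
      have h2 : ζ ^ k (a + h) = ζ ^ ((k a + k h) % ℓ ^ 2) := by
        have h3 : ζ ^ (k a + k h) = ζ ^ ((k a + k h) % ℓ ^ 2) := by
          conv_lhs => rw [← Nat.div_add_mod (k a + k h) (ℓ ^ 2), pow_add, pow_mul, hζ.pow_eq_one,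
            one_pow, one_mul]
        rw [← h3, hkχ, AddChar.map_add_eq_mul, pow_add, hkχ, hkχ]
      have h3 := hζ.pow_inj (hk _) (Nat.mod_lt _ hg0) h2
      rw [h3, hh, Nat.mod_mod_of_dvd _ (Dvd.intro_left (ℓ ^ 1) (by ring)), Nat.add_mod_right]
  · -- the kernel has order `ℓ`
    left
    push Not at hinj
    obtain ⟨h, hh1, hh0⟩ := hinj
    let K : AddSubgroup B :=
      { carrier := {b | χ b = 1}
        zero_mem' := AddChar.map_zero_eq_one χ
        add_mem' := fun {a b} ha hb => by
          change χ (a + b) = 1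
          rw [AddChar.map_add_eq_mul, show χ a = 1 from ha, show χ b = 1 from hb, one_mul]
        neg_mem' := fun {a} ha => by
          change χ (-a) = 1
          rw [AddChar.map_neg_eq_inv, show χ a = 1 from ha, inv_one] }
    have hKmem : ∀ b, b ∈ K ↔ χ b = 1 := fun b => Iff.rfl
    have hKc : Nat.card K = ℓ := by
      have h1 : Nat.card K ∣ ℓ ^ 2 := by
        rw [← hB, ← Nat.card_eq_fintype_card]
        exact AddSubgroup.card_addSubgroup_dvd_card K
      obtain ⟨m, hm, hKm⟩ := (Nat.dvd_prime_pow hℓ.out).1 h1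
      interval_cases m
      · exfalso
        rw [pow_zero, Nat.card_eq_one_iff_unique] at hKm
        obtain ⟨hs, -⟩ := hKm
        have h2 : (⟨h, hh1⟩ : K) = 0 := Subsingleton.elim _ _
        exact hh0 (congrArg Subtype.val h2)
      · rw [hKm, pow_one]
      · exfalso
        apply htriv
        intro b
        have h2 : K = ⊤ := by
          apply AddSubgroup.eq_top_of_card_eq
          rw [hKm, Nat.card_eq_fintype_card, hB]
        have h3 : b ∈ K := by rw [h2]; trivial
        exact h3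
    have hKi : K.index = ℓ := by
      have h1 := K.card_mul_index
      rw [hKc, Nat.card_eq_fintype_card, hB, pow_two] at h1
      exact Nat.eq_of_mul_eq_mul_left hℓ0 h1
    let ω : ℂ := Complex.exp (2 * Real.pi * Complex.I / (ℓ : ℕ))
    have hω : IsPrimitiveRoot ω ℓ := Complex.isPrimitiveRoot_exp _ hℓ0.ne'
    have h1 : ∀ b, ∃ k < ℓ, ω ^ k = χ b := by
      intro b
      refine hω.eq_pow_of_pow_eq_one ?_
      have h2 := K.nsmul_index_mem b
      rw [hKi, hKmem, AddChar.map_nsmul_eq_pow] at h2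
      exact h2
    choose k hk hkχ using h1
    let κ : B → Fin ℓ := fun b => ⟨k b, hk b⟩
    have hκ : ∀ b i, κ b = i ↔ k b = i := fun b i => Fin.ext_iff
    have hle : ∀ i ∈ (Finset.univ : Finset (Fin ℓ)), Fintype.card {b // κ b = i} ≤ ℓ := by
      intro i _
      by_cases hne : Nonempty {b // κ b = i}
      · obtain ⟨b₀, hb₀⟩ := hne
        have hf : ∀ b : {b // κ b = i}, (b : B) - b₀ ∈ K := by
          rintro ⟨b, hb⟩
          rw [hKmem]
          have h2 : χ b = χ b₀ := by
            rw [← hkχ, ← hkχ, (hκ _ _).1 hb, (hκ _ _).1 hb₀]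
          have h4 : χ (b - b₀) * χ b₀ = χ b := by
            rw [← AddChar.map_add_eq_mul, sub_add_cancel]
          rw [h2] at h4
          exact mul_right_cancel₀ (char_ne_zero χ b₀) (h4.trans (one_mul _).symm)
        have h3 : Function.Injective (fun b : {b // κ b = i} => (⟨(b : B) - b₀, hf b⟩ : K)) := by
          intro b b' hbb
          have h4 : (b : B) - b₀ = (b' : B) - b₀ := congrArg Subtype.val hbb
          exact Subtype.ext (sub_left_inj.1 h4)
        have h4 := Nat.card_le_card_of_injective _ h3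
        rw [hKc, Nat.card_eq_fintype_card] at h4
        exact h4
      · rw [not_nonempty_iff] at hne
        rw [Fintype.card_eq_zero]
        exact Nat.zero_le _
    have hsumc : ∑ i : Fin ℓ, Fintype.card {b // κ b = i} = ∑ _i : Fin ℓ, ℓ := by
      rw [Finset.sum_const, Finset.card_univ, Fintype.card_fin, smul_eq_mul, ← pow_two, ← hB,
        ← Fintype.card_sigma]
      exact Fintype.card_congr (Equiv.sigmaFiberEquiv κ)
    have hcard : ∀ i, Fintype.card {b // κ b = i} = ℓ := fun i =>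
      (Finset.sum_eq_sum_iff_of_le hle).1 hsumc i (Finset.mem_univ _)
    refine ⟨κ, hcard, ?_⟩
    intro w hw
    let V : ℕ → ℚ := fun m => ∑ b : B, if k b = m then w b else 0
    have hsum : ∑ m ∈ Finset.range ℓ, (V m : ℂ) * ω ^ m = 0 := by
      rw [← hw]
      have h2 : ∀ m ∈ Finset.range ℓ, (V m : ℂ) * ω ^ m =
          ∑ b : B, if k b = m then (w b : ℂ) * χ b else 0 := by
        intro m _
        simp only [V]
        rw [Rat.cast_sum, Finset.sum_mul]
        refine Finset.sum_congr rfl fun b _ => ?_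
        by_cases h3 : k b = m
        · rw [if_pos h3, if_pos h3, ← hkχ, h3]
        · rw [if_neg h3, if_neg h3, Rat.cast_zero, zero_mul]
      rw [Finset.sum_congr rfl h2, Finset.sum_comm]
      refine Finset.sum_congr rfl fun b _ => ?_
      rw [Finset.sum_ite_eq, if_pos (Finset.mem_range.2 (hk b))]
    have hconst := const_of_root hℓ.out hω V hsum
    refine ⟨V 0, fun i => ?_⟩
    rw [← hconst i i.2]
    simp only [V]
    rw [← Finset.sum_filter]
    symm
    refine Finset.sum_subtype _ (fun b => ?_) w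
    rw [Finset.mem_filter, hκ]
    simp

end

end Pool.Agent.H21.NQ
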