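import Pool.Agent.H21.NQ.One

/-!
# The slopes `0`, `1 / 2`, `1`: classification
-/

set_option autoImplicit false
set_option linter.unusedSectionVars false

universe u

namespace Pool.Agent.H21.NQ

open MulAction Module Pool.Agent.H21.NP Pool.Agent.H21.TC

variable (Ω : Type u) [Field Ω] [IsAlgClosed Ω] [CharZero Ω] (p : ℕ) [Fact p.Prime]
variable {g : ℕ} {s : Fin g → ℚ}

theorem bounds (hs : ∀ j, s j = 0 ∨ s j = 1 / 2 ∨ s j = 1) : ∀ j, 0 ≤ s j ∧ s j ≤ 1 := by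
  intro j
  rcases hs j with h | h | h
  · rw [h]
    norm_num
  · rw [h]
    norm_num
  · rw [h]
    norm_num

theorem exists_of_pRank (h : pRank s ≠ 0) : ∃ j, s j ≠ 1 / 2 := by
  classical
  obtain ⟨j, hj⟩ := Finset.card_pos.1 (Nat.pos_of_ne_zero h)
  exact ⟨j, (Finset.mem_filter.1 hj).2⟩

theorem rigid_of_pRank_zero (h : pRank s = 0) : Rigid Ω p s := by
  classical
  refine rigid_of_noRel p Ω s fun ⟨j, hj⟩ => ?_
  rw [pRank, Finset.card_eq_zero, Finset.filter_eq_empty_iff] at h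
  exact (h (Finset.mem_univ j) hj).elim

theorem pRank_le : pRank s ≤ g := by
  classical
  refine (Finset.card_filter_le _ _).trans ?_
  rw [Finset.card_univ, Fintype.card_fin]

theorem rigid_of_pRank_one (h : pRank s = 1) : Rigid Ω p s := by
  classical
  refine rigid_of_noRel p Ω s fun _ => ?_
  obtain ⟨j₀, hj₀⟩ := Finset.card_eq_one.1 h
  have h1 : ∀ j, s j ≠ 1 / 2 ↔ j = j₀ := by
    intro j
    have h2 := Finset.ext_iff.1 hj₀ j
    simpa using h2
  refine noRel_of_one _ j₀ ?_ fun j hj => ?_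
  · intro h3
    apply (h1 j₀).2 rfl
    linarith
  · have h3 : s j = 1 / 2 := by
      by_contra h3
      exact hj ((h1 j).1 h3)
    rw [h3]
    norm_num

theorem rigid_of_pRank_pred (hg : Even g) (hg0 : 0 < g)
    (hs : ∀ j, s j = 0 ∨ s j = 1 / 2 ∨ s j = 1) (h : pRank s = g - 1) : Rigid Ω p s := by
  classical
  refine rigid_of_noRel p Ω s fun _ => ?_
  have h0 : (Finset.univ.filter fun j => ¬ s j ≠ 1 / 2).card = 1 := by
    have h1 := Finset.card_filter_add_card_filter_not (s := (Finset.univ : Finset (Fin g)))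
      (fun j => s j ≠ 1 / 2)
    rw [Finset.card_univ, Fintype.card_fin] at h1
    have h2 : (Finset.univ.filter fun j => s j ≠ 1 / 2).card = g - 1 := h
    omega
  obtain ⟨j₀, hj₀⟩ := Finset.card_eq_one.1 h0
  have h1 : ∀ j, s j = 1 / 2 ↔ j = j₀ := by
    intro j
    have h2 := Finset.ext_iff.1 hj₀ j
    simpa using h2
  obtain ⟨n, hn, hn'⟩ := exists_int hs
  refine noRel_of_one_even hg _ 1 one_ne_zero n (fun j => by rw [hn, one_mul]) j₀ ?_ fun j hj => ?_
  · have h3 := hn' j₀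
    rw [if_neg (not_not.2 ((h1 j₀).2 rfl)), abs_eq_zero] at h3
    rw [h3]
    exact Even.zero
  · have h3 := hn' j
    rw [if_pos (fun h => hj ((h1 j).1 h))] at h3
    rcases (abs_eq (by norm_num : (0 : ℤ) ≤ 1)).1 h3 with h4 | h4
    · rw [h4]
      exact odd_one
    · rw [h4]
      exact odd_one.neg

theorem rigid_of_le_two (hg : g ≤ 2) : Rigid Ω p s := by
  intro F _ _ _ a π ha hπ hgen hsl
  exact onPowers_of_onlyLefschetz Ω _ π (onlyLefschetz_of_cond p Ω a ha π hπ hgen s hsl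
    (Or.inr (by omega)) (Or.inr (Or.inl hg)))

theorem not_rigid_of_even (hg : 3 ≤ g) (hs : ∀ j, s j = 0 ∨ s j = 1 / 2 ∨ s j = 1)
    (h0 : pRank s ≠ 0) (h : Even (pRank s)) : ¬ Rigid Ω p s :=
  not_rigid_of_zeroSum Ω p hg s (bounds hs) (exists_of_pRank h0) (zeroSum_of_even hs h)

/-- A power of a prime. -/
theorem rigid_iff_prime_pow (ℓ k : ℕ) (hℓ : ℓ.Prime) (hk : 1 ≤ k) (hg : g = ℓ ^ k)
    (hs : ∀ j, s j = 0 ∨ s j = 1 / 2 ∨ s j = 1) :
    Rigid Ω p s ↔ pRank s = 0 ∨ g = 2 ∨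
      (Odd (pRank s) ∧ (ℓ = 2 ∨ k = 1 ∨ pRank s < ℓ)) := by
  have : Fact ℓ.Prime := ⟨hℓ⟩
  have hg2 : 2 ≤ g := by
    rw [hg]
    exact hℓ.two_le.trans (Nat.le_self_pow (by omega) ℓ)
  constructor
  · intro hR
    by_contra hno
    rw [not_or, not_or] at hno
    obtain ⟨h0, h2, h3⟩ := hno
    have hodd : Odd (pRank s) := by
      by_contra hev
      exact not_rigid_of_even Ω p (by omega) hs h0 (Nat.not_odd_iff_even.1 hev) hR
    have h4 : ¬ (ℓ = 2 ∨ k = 1 ∨ pRank s < ℓ) := fun h => h3 ⟨hodd, h⟩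
    rw [not_or, not_or, not_lt] at h4
    obtain ⟨hℓ2, hk1, hle⟩ := h4
    obtain ⟨k, rfl⟩ : ∃ k', k = k' + 1 := ⟨k - 1, by omega⟩
    have hℓodd : Odd ℓ := hℓ.odd_of_ne_two hℓ2
    obtain ⟨h, hh⟩ : Odd (ℓ ^ k) := hℓodd.pow
    have hg' : g = ℓ * ℓ ^ k := by rw [hg, pow_succ']
    refine not_rigid_of_equalSums Ω p (g₁ := ℓ) (g₂ := ℓ ^ k) hℓ.two_le
      (hℓ.two_le.trans (Nat.le_self_pow (by omega) ℓ)) s (bounds hs) (exists_of_pRank h0)
      (equalSums_of_pRank hg' hℓodd (h := h) (by omega) hs hodd hle ?_) hR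
    rw [← hh, ← hg']
    exact pRank_le
  · rintro (h | h | ⟨hodd, h | h | h⟩)
    · exact rigid_of_pRank_zero Ω p h
    · exact rigid_of_le_two Ω p h.le
    · subst h
      exact rigid_of_two_pow Ω p hg (oddSum_of_pRank hs hodd)
    · subst h
      rw [pow_one] at hg
      exact rigid_of_prime_odd Ω p (by rw [hg]; exact hℓ) (oddSum_of_pRank hs hodd)
    · exact rigid_of_noRel p Ω s fun _ => noRel_of_small ℓ hg hs hodd h

/-- Multiples of three. -/
theorem rigid_iff_three (h3 : 3 ∣ g) (hg : 3 < g)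
    (hs : ∀ j, s j = 0 ∨ s j = 1 / 2 ∨ s j = 1) :
    Rigid Ω p s ↔ pRank s ≤ 1 ∨ (Even g ∧ pRank s = g - 1) := by
  constructor
  · intro hR
    by_contra hno
    rw [not_or, not_le] at hno
    obtain ⟨h1, h2⟩ := hno
    have hodd : Odd (pRank s) := by
      by_contra hev
      exact not_rigid_of_even Ω p (by omega) hs (by omega) (Nat.not_odd_iff_even.1 hev) hR
    obtain ⟨g₂, hg₂⟩ := h3
    have hle : pRank s ≤ g := pRank_le
    obtain ⟨h, hh1, hh2⟩ : ∃ h, 2 * h + 1 ≤ g₂ ∧ pRank s ≤ 3 * (2 * h + 1) := by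
      rcases Nat.even_or_odd g₂ with h4 | ⟨b, hb⟩
      · obtain ⟨a, ha⟩ := hodd
        obtain ⟨b, hb⟩ := h4
        refine ⟨b - 1, by omega, ?_⟩
        have h5 : pRank s ≠ g - 1 := fun h5 => h2 ⟨⟨3 * b, by omega⟩, h5⟩
        omega
      · exact ⟨b, by omega, by omega⟩
    obtain ⟨a, ha⟩ := hodd
    exact not_rigid_of_equalSums Ω p (g₁ := 3) (g₂ := g₂) (by norm_num) (by omega) s (bounds hs)
      (exists_of_pRank (by omega)) (equalSums_of_pRank hg₂ (by decide) hh1 hs ⟨a, ha⟩ (by omega)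
        hh2) hR
  · rintro (h | ⟨h, h'⟩)
    · rcases Nat.lt_or_ge (pRank s) 1 with h4 | h4
      · exact rigid_of_pRank_zero Ω p (by omega)
      · exact rigid_of_pRank_one Ω p (by omega)
    · exact rigid_of_pRank_pred Ω p h (by omega) hs h'

/-- All slopes are equal. -/
theorem rigid_const (c : ℚ) (h0 : 0 ≤ c) (h1 : c ≤ 1) (hc : c ≠ 1 / 2) :
    Rigid Ω p (fun _ : Fin g => c) ↔ g ≤ 1 ∨ g.Prime := by
  constructor
  · intro hR
    by_contra hno
    rw [not_or, not_le] at hno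
    obtain ⟨hg1, hg2⟩ := hno
    obtain ⟨a, ha0, ha1, ha2⟩ := Nat.exists_dvd_of_not_prime2 (by omega) hg2
    obtain ⟨b, hb⟩ := ha0
    have hb2 : 2 ≤ b := by
      by_contra hb2
      have h3 : b = 0 ∨ b = 1 := by omega
      rcases h3 with h3 | h3
      · rw [h3, mul_zero] at hb
        omega
      · rw [h3, mul_one] at hb
        omega
    exact not_rigid_of_equalSums Ω p (g₁ := a) (g₂ := b) ha1 hb2 _ (fun _ => ⟨h0, h1⟩)
      ⟨⟨0, by omega⟩, hc⟩ (equalSums_const hb c) hR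
  · intro hg
    rcases Nat.lt_or_ge 2 g with h2 | h2
    · have hg' : g.Prime := hg.resolve_left (by omega)
      refine rigid_of_prime_odd Ω p hg' ⟨1 - 2 * c, fun _ => 1, fun j => by
        rw [Int.cast_one, mul_one], ?_⟩
      rw [Finset.sum_const, Finset.card_univ, Fintype.card_fin, nsmul_eq_mul, mul_one]
      exact_mod_cast hg'.odd_of_ne_two (by omega)
    · exact rigid_of_le_two Ω p h2

theorem exists_odd_not_rigid (hg0 : 1 ≤ g) (hg1 : ¬ g.Prime) (hg2 : ¬ ∃ k, g = 2 ^ k) :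
    ∃ s : Fin g → ℚ, (∀ j, s j = 0 ∨ s j = 1 / 2 ∨ s j = 1) ∧ Odd (pRank s) ∧ ¬ Rigid Ω p s := by
  classical
  obtain ⟨ℓ, hℓ, ⟨g₂, hg₂⟩, hodd⟩ := (Nat.eq_two_pow_or_exists_odd_prime_and_dvd g).resolve_left hg2
  have h2 : 2 ≤ g₂ := by
    by_contra hb2
    have h3 : g₂ = 0 ∨ g₂ = 1 := by omega
    rcases h3 with h3 | h3
    · rw [h3, mul_zero] at hg₂
      omega
    · rw [h3, mul_one] at hg₂
      exact hg1 (by rw [hg₂]; exact hℓ)
  let s : Fin g → ℚ := fun j => if (j : ℕ) < ℓ then 0 else 1 / 2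
  have hs : ∀ j, s j = 0 ∨ s j = 1 / 2 ∨ s j = 1 := by
    intro j
    by_cases h : (j : ℕ) < ℓ
    · exact Or.inl (if_pos h)
    · exact Or.inr (Or.inl (if_neg h))
  have hr : pRank s = ℓ := by
    have h3 : ∀ j : Fin g, s j ≠ 1 / 2 ↔ (j : ℕ) < ℓ := by
      intro j
      by_cases h : (j : ℕ) < ℓ
      · have h4 : s j = 0 := if_pos h
        rw [h4]
        simp [h]
      · have h4 : s j = 1 / 2 := if_neg h
        rw [h4]
        simp [h]
    rw [pRank, Finset.filter_congr fun j _ => h3 j]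
    apply card_lt
    rw [hg₂]
    exact Nat.le_mul_of_pos_right _ (by omega)
  refine ⟨s, hs, by rw [hr]; exact hodd, ?_⟩
  refine not_rigid_of_equalSums Ω p (g₁ := ℓ) (g₂ := g₂) hℓ.two_le h2 s (bounds hs)
    (exists_of_pRank (by rw [hr]; exact hℓ.ne_zero))
    (equalSums_of_pRank hg₂ hodd (h := 0) (by omega) hs (by rw [hr]; exact hodd) hr.ge ?_)
  rw [hr]
  omega

end Pool.Agent.H21.NQ
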