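import Pool.Agent.H21.NQ.Odd

/-!
# Arrangements of the slopes `0`, `1 / 2`, `1`
-/

set_option autoImplicit false
set_option linter.unusedSectionVars false

universe u

namespace Pool.Agent.H21.NQ

open MulAction Module Pool.Agent.H21.NP Pool.Agent.H21.TC

/-- Odd parts. -/
theorem exists_parts {g₁ h d : ℕ} (hd : d ≤ g₁ * h) :
    ∃ a : Fin g₁ → ℕ, (∀ i, a i ≤ h) ∧ ∑ i, a i = d := by
  classical
  obtain ⟨D, -, hD⟩ := Finset.exists_subset_card_eq
    (show d ≤ (Finset.univ : Finset (Fin g₁ × Fin h)).card by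
      rw [Finset.card_univ, Fintype.card_prod, Fintype.card_fin, Fintype.card_fin]
      exact hd)
  refine ⟨fun i => (Finset.univ.filter fun j => (i, j) ∈ D).card, fun i => ?_, ?_⟩
  · refine (Finset.card_filter_le _ _).trans ?_
    rw [Finset.card_univ, Fintype.card_fin]
  · rw [← hD]
    have h1 : D.card = ∑ x : Fin g₁ × Fin h, if x ∈ D then 1 else 0 := by
      rw [← Finset.card_filter, Finset.filter_univ_mem]
    rw [h1, Fintype.sum_prod_type]
    exact Finset.sum_congr rfl fun i _ => Finset.card_filter _ _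

theorem exists_equiv_of_card {α β : Type*} [Fintype α] [Fintype β] (P : α → Prop) (Q : β → Prop)
    [DecidablePred P] [DecidablePred Q] (hαβ : Fintype.card α = Fintype.card β)
    (h : (Finset.univ.filter P).card = (Finset.univ.filter Q).card) :
    ∃ e : α ≃ β, ∀ x, Q (e x) ↔ P x := by
  have h1 : Fintype.card {x // P x} = Fintype.card {y // Q y} := by
    rw [Fintype.card_subtype, Fintype.card_subtype, h]
  have h2 : Fintype.card {x // ¬ P x} = Fintype.card {y // ¬ Q y} := by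
    rw [Fintype.card_subtype_compl, Fintype.card_subtype_compl, h1, hαβ]
  let e₁ := Fintype.equivOfCardEq h1
  let e₂ := Fintype.equivOfCardEq h2
  refine ⟨(Equiv.sumCompl P).symm.trans ((Equiv.sumCongr e₁ e₂).trans (Equiv.sumCompl Q)), fun x => ?_⟩
  by_cases hx : P x
  · simp only [Equiv.trans_apply, Equiv.sumCompl_symm_apply_of_pos hx, Equiv.sumCongr_apply,
      Sum.map_inl, Equiv.sumCompl_apply_inl, hx, iff_true]
    exact (e₁ ⟨x, hx⟩).2
  · simp only [Equiv.trans_apply, Equiv.sumCompl_symm_apply_of_neg hx, Equiv.sumCongr_apply,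
      Sum.map_inr, Equiv.sumCompl_apply_inr, hx, iff_false]
    exact (e₂ ⟨x, hx⟩).2

theorem sum_alt {g₂ r : ℕ} (hr : r ≤ g₂) (hodd : Odd r) :
    ∑ j : Fin g₂, (if (j : ℕ) < r then (-1 : ℤ) ^ (j : ℕ) else 0) = 1 := by
  rw [Fin.sum_univ_eq_sum_range (fun j => if j < r then (-1 : ℤ) ^ j else 0) g₂,
    ← Finset.sum_filter]
  have h1 : (Finset.range g₂).filter (fun j => j < r) = Finset.range r := by
    ext j
    simp only [Finset.mem_filter, Finset.mem_range]
    omega
  rw [h1, neg_one_geom_sum, if_neg (Nat.not_even_iff_odd.2 hodd)]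

theorem card_lt {g₂ r : ℕ} (hr : r ≤ g₂) :
    (Finset.univ.filter fun j : Fin g₂ => (j : ℕ) < r).card = r := by
  rw [Fin.card_filter_val_lt, min_eq_right hr]

variable {g g₁ g₂ : ℕ} {s : Fin g → ℚ}

/-- **Arrangements.** -/
theorem equalSums_of_pRank (hg : g = g₁ * g₂) (h₁ : Odd g₁) {h : ℕ} (hh : 2 * h + 1 ≤ g₂)
    (hs : ∀ j, s j = 0 ∨ s j = 1 / 2 ∨ s j = 1) (hodd : Odd (pRank s)) (hl : g₁ ≤ pRank s)
    (hu : pRank s ≤ g₁ * (2 * h + 1)) : EqualSums g₁ g₂ s := by
  classical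
  obtain ⟨n, hn, hn'⟩ := exists_int hs
  obtain ⟨d, hd⟩ : ∃ d, pRank s = g₁ + 2 * d := by
    obtain ⟨a, ha⟩ := hodd
    obtain ⟨b, hb⟩ := h₁
    exact ⟨a - b, by omega⟩
  obtain ⟨a, ha, hasum⟩ := exists_parts (g₁ := g₁) (h := h) (d := d) (by nlinarith)
  let r : Fin g₁ → ℕ := fun i => 2 * a i + 1
  have hr : ∀ i, r i ≤ g₂ := by
    intro i
    have := ha i
    simp only [r]
    omega
  have hrodd : ∀ i, Odd (r i) := fun i => ⟨a i, rfl⟩
  obtain ⟨e, he⟩ := exists_equiv_of_card (fun x : Fin g₁ × Fin g₂ => (x.2 : ℕ) < r x.1)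
    (fun j : Fin g => s j ≠ 1 / 2) (by
      rw [Fintype.card_prod, Fintype.card_fin, Fintype.card_fin, Fintype.card_fin, hg]) (by
      change _ = pRank s
      rw [Finset.card_filter, Fintype.sum_prod_type]
      have h1 : ∀ i : Fin g₁, (∑ j : Fin g₂, if (j : ℕ) < r i then 1 else 0) = 2 * a i + 1 := by
        intro i
        rw [← Finset.card_filter]
        exact card_lt (hr i)
      rw [Finset.sum_congr rfl fun i _ => h1 i, Finset.sum_add_distrib, ← Finset.mul_sum, hasum,
        Finset.sum_const, Finset.card_univ, Fintype.card_fin, hd, smul_eq_mul, mul_one]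
      ring)
  let v : Fin g₁ × Fin g₂ → ℤ := fun x => if (x.2 : ℕ) < r x.1 then (-1 : ℤ) ^ (x.2 : ℕ) else 0
  refine ⟨e, fun x => if v (e.symm x) = n x then 1 else -1, 1, fun i => ?_⟩
  have h1 : ∀ j, ((((if v (e.symm (e (i, j))) = n (e (i, j)) then 1 else -1) : ℤˣ) : ℤ) : ℚ) *
      (1 - 2 * s (e (i, j))) = (v (i, j) : ℚ) := by
    intro j
    rw [hn, Equiv.symm_apply_apply]
    by_cases h2 : v (i, j) = n (e (i, j))
    · rw [if_pos h2, h2]
      simp
    · rw [if_neg h2]
      have h3 := hn' (e (i, j))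
      have h4 := he (i, j)
      by_cases h5 : (j : ℕ) < r i
      · have h6 : s (e (i, j)) ≠ 1 / 2 := h4.2 h5
        rw [if_pos h6] at h3
        have h7 : v (i, j) = (-1) ^ (j : ℕ) := if_pos h5
        rw [h7] at h2 ⊢
        rcases (abs_eq (by norm_num : (0 : ℤ) ≤ 1)).1 h3 with h8 | h8
        · rcases neg_one_pow_eq_or ℤ (j : ℕ) with h9 | h9
          · exact (h2 (h9.trans h8.symm)).elim
          · rw [h9, h8]
            norm_num
        · rcases neg_one_pow_eq_or ℤ (j : ℕ) with h9 | h9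
          · rw [h9, h8]
            norm_num
          · exact (h2 (h9.trans h8.symm)).elim
      · have h6 : ¬ s (e (i, j)) ≠ 1 / 2 := fun h => h5 (h4.1 h)
        rw [if_neg h6, abs_eq_zero] at h3
        have h7 : v (i, j) = 0 := if_neg h5
        exact (h2 (h7.trans h3.symm)).elim
  rw [Finset.sum_congr rfl fun j _ => h1 j]
  have h2 : ∑ j, v (i, j) = 1 := sum_alt (hr i) (hrodd i)
  exact_mod_cast h2

/-- All differences are equal. -/
theorem equalSums_const (hg : g = g₁ * g₂) (c : ℚ) : EqualSums g₁ g₂ (fun _ : Fin g => c) := by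
  have e : Fin g₁ × Fin g₂ ≃ Fin g := finProdFinEquiv.trans (finCongr hg.symm)
  refine ⟨e, fun _ => 1, g₂ * (1 - 2 * c), fun i => ?_⟩
  simp only [Units.val_one, Int.cast_one, one_mul, Finset.sum_const, Finset.card_univ,
    Fintype.card_fin, nsmul_eq_mul]

end Pool.Agent.H21.NQ
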