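import Pool.Agent.H21.NP.Dbl

/-!
# Doubly transitive Galois groups over fields with places of degree one
-/

set_option autoImplicit false
set_option linter.unusedSectionVars false

namespace Pool.Agent.H21.NQ

open Polynomial Pool.Agent.N90.FD Pool.Agent.H21.NP

/-- All embeddings of `QQ` in an algebraic closure of the field of `q`-adic numbers have rational
values at the elements of `Y`. -/
def Rat' (q : ℕ) [Fact q.Prime] (Y : Set QQ) : Prop :=
  ∀ (e : QQ →ₐ[ℚ] PadicAlgCl q), ∀ y ∈ Y, ∃ z : ℚ_[q], e y = algebraMap ℚ_[q] (PadicAlgCl q) z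

theorem root_map (f : ℤ[X]) (σ : QQ ≃ₐ[ℚ] QQ) (z : QQ) (hz : aeval z f = 0) :
    aeval (σ z) f = 0 := by
  have h5 := congrArg σ hz
  rw [map_zero] at h5
  rw [← h5]
  exact (aeval_algHom_apply ((σ : QQ →ₐ[ℚ] QQ).restrictScalars ℤ) z f)

section

variable (q : ℕ) [hq : Fact q.Prime]

/-- Automorphisms over the field of `q`-adic numbers. -/
theorem lift_fix (Y : Set QQ) (hY : Rat' q Y) (e : QQ →ₐ[ℚ] PadicAlgCl q)
    (τ : PadicAlgCl q ≃ₐ[ℚ_[q]] PadicAlgCl q) :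
    ∃ σ : QQ ≃ₐ[ℚ] QQ, (∀ x, τ (e x) = e (σ x)) ∧ ∀ y ∈ Y, σ y = y := by
  obtain ⟨σ, hσ⟩ := exists_lift_aux e (((τ : PadicAlgCl q ≃ₐ[ℚ_[q]] PadicAlgCl q) :
    PadicAlgCl q →+* PadicAlgCl q).toRatAlgHom.comp e)
  have hσ' : ∀ x, τ (e x) = e (σ x) := hσ
  refine ⟨σ, hσ', fun y hy => ?_⟩
  obtain ⟨z, hz⟩ := hY e y hy
  apply e.injective
  change e (σ y) = e y
  rw [← hσ', hz]
  exact τ.commutes _

theorem trans_fix (Y : Set QQ) (hY : Rat' q Y) (f : ℤ[X]) (hf : f.Monic)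
    (hirr : Irreducible (f.map (Int.castRingHom ℤ_[q]))) (α α' : QQ)
    (h : aeval α f = 0) (h' : aeval α' f = 0) :
    ∃ σ : QQ ≃ₐ[ℚ] QQ, σ α = α' ∧ ∀ y ∈ Y, σ y = y := by
  let e : QQ →ₐ[ℚ] PadicAlgCl q := IsAlgClosed.lift
  have hirrQ : Irreducible ((f.map (Int.castRingHom ℤ_[q])).map (algebraMap ℤ_[q] ℚ_[q])) :=
    ((hf.map _).irreducible_iff_irreducible_map_fraction_map).1 hirr
  have key : ∀ z : QQ, aeval z f = 0 →
      (f.map (Int.castRingHom ℤ_[q])).map (algebraMap ℤ_[q] ℚ_[q]) = minpoly ℚ_[q] (e z) := by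
    intro z hz
    refine minpoly.eq_of_irreducible_of_monic hirrQ ?_ ((hf.map _).map _)
    have h4 : aeval (e z) f = 0 := by
      have h5 := congrArg e hz
      rw [map_zero] at h5
      rw [← h5]
      exact (aeval_algHom_apply (e.restrictScalars ℤ) z f)
    rw [Polynomial.map_map, aeval_def, eval₂_map, ← h4, aeval_def]
    congr 1
  obtain ⟨τ, hτ⟩ := (Normal.minpoly_eq_iff_mem_orbit (PadicAlgCl q)).mp
    ((key α' h').symm.trans (key α h))
  have hτ' : τ (e α) = e α' := hτ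
  obtain ⟨σ, hσ, hσY⟩ := lift_fix q Y hY e τ
  refine ⟨σ, ?_, hσY⟩
  apply e.injective
  change e (σ α) = e α'
  rw [← hσ, hτ']

theorem step_fix (Y : Set QQ) (hY : Rat' q Y) (f : ℤ[X]) (hf : f.Monic) (h : ℤ[X])
    (hd : 2 ≤ h.natDegree) (hh : h.Monic)
    (hhi : Irreducible (h.map (Int.castRingHom (ZMod q))))
    (hfh : f.map (Int.castRingHom (ZMod q)) = X * h.map (Int.castRingHom (ZMod q))) :
    ∃ α0 : QQ, aeval α0 f = 0 ∧ ∀ β β' : QQ, aeval β f = 0 → aeval β' f = 0 → β ≠ α0 → β' ≠ α0 →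
      ∃ σ : QQ ≃ₐ[ℚ] QQ, σ α0 = α0 ∧ σ β = β' ∧ ∀ y ∈ Y, σ y = y := by
  obtain ⟨a, h1, hfa, hm1, hi1⟩ := irreducible_factor q f hf h hd hh hhi hfh
  let e : QQ →ₐ[ℚ] PadicAlgCl q := IsAlgClosed.lift
  let ι : ℤ_[q] →+* PadicAlgCl q := (algebraMap ℚ_[q] (PadicAlgCl q)).comp (algebraMap ℤ_[q] ℚ_[q])
  have hroots : ∀ z : PadicAlgCl q, aeval z f = 0 ↔ z = ι a ∨ eval₂ ι z h1 = 0 := by
    intro z
    have e1 : aeval z f = eval₂ ι z (f.map (Int.castRingHom ℤ_[q])) := by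
      rw [eval₂_map, aeval_def]
      congr 1
    rw [e1, hfa, eval₂_mul, mul_eq_zero, eval₂_sub, eval₂_X, eval₂_C, sub_eq_zero]
  obtain ⟨α0, hα0, hα0'⟩ := exists_root_lift e f hf (ι a) ((hroots _).2 (Or.inl rfl))
  have hirrq : Irreducible (h1.map (algebraMap ℤ_[q] ℚ_[q])) :=
    (hm1.irreducible_iff_irreducible_map_fraction_map).1 hi1
  refine ⟨α0, hα0', ?_⟩
  intro β β' hβ hβ' h2 h3
  have key : ∀ z : QQ, aeval z f = 0 → z ≠ α0 →
      h1.map (algebraMap ℤ_[q] ℚ_[q]) = minpoly ℚ_[q] (e z) := by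
    intro z hz hz'
    refine minpoly.eq_of_irreducible_of_monic hirrq ?_ (hm1.map _)
    have h4 : aeval (e z) f = 0 := by
      have h5 := congrArg e hz
      rw [map_zero] at h5
      rw [← h5]
      exact (aeval_algHom_apply (e.restrictScalars ℤ) z f)
    rcases (hroots _).1 h4 with h5 | h5
    · exfalso
      apply hz'
      apply e.injective
      exact h5.trans hα0.symm
    · rw [aeval_def, eval₂_map]
      exact h5
  obtain ⟨τ, hτ⟩ := (Normal.minpoly_eq_iff_mem_orbit (PadicAlgCl q)).mp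
    ((key β' hβ' h3).symm.trans (key β hβ h2))
  have hτ' : τ (e β) = e β' := hτ
  obtain ⟨σ, hσ, hσY⟩ := lift_fix q Y hY e τ
  refine ⟨σ, ?_, ?_, hσY⟩
  · apply e.injective
    change e (σ α0) = e α0
    rw [← hσ, hα0]
    exact τ.commutes _
  · apply e.injective
    change e (σ β) = e β'
    rw [← hσ, hτ']

end

/-- **Double transitivity** of the stabilizer of `Y`. -/
theorem dbl_fix (Y : Set QQ) (f : ℤ[X]) (hf : f.Monic) (hd2 : 2 ≤ f.natDegree)
    (q₁ : ℕ) [Fact q₁.Prime] (hY₁ : Rat' q₁ Y)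
    (hirr : Irreducible (f.map (Int.castRingHom ℤ_[q₁])))
    (q₂ : ℕ) [Fact q₂.Prime] (hY₂ : Rat' q₂ Y) (h : ℤ[X]) (hd : h.natDegree = f.natDegree - 1)
    (hh : h.Monic) (hhi : Irreducible (h.map (Int.castRingHom (ZMod q₂))))
    (hfh : f.map (Int.castRingHom (ZMod q₂)) = X * h.map (Int.castRingHom (ZMod q₂)))
    (α β α' β' : QQ) (hα : aeval α f = 0) (hβ : aeval β f = 0) (hα' : aeval α' f = 0)
    (hβ' : aeval β' f = 0) (hne : α ≠ β) (hne' : α' ≠ β') :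
    ∃ σ : QQ ≃ₐ[ℚ] QQ, σ α = α' ∧ σ β = β' ∧ ∀ y ∈ Y, σ y = y := by
  classical
  have htr := fun (α α' : QQ) h h' => trans_fix q₁ Y hY₁ f hf hirr α α' h h'
  rcases Nat.lt_or_ge f.natDegree 3 with h3 | h3
  · -- degree two
    obtain ⟨σ, hσ, hσY⟩ := htr α α' hα hα'
    refine ⟨σ, hσ, ?_, hσY⟩
    have h1 : aeval (σ β) f = 0 := root_map f σ β hβ
    have h2 : σ β ≠ α' := fun h4 => hne (σ.injective (hσ.trans h4.symm))
    by_contra hno
    let P : QQ[X] := f.map (Int.castRingHom QQ)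
    have hP : P ≠ 0 := (hf.map _).ne_zero
    have hroot : ∀ z : QQ, aeval z f = 0 → z ∈ P.roots := by
      intro z hz
      rw [mem_roots hP, IsRoot, eval_map, ← hz, aeval_def]
      congr 1
    have h4 : ({α', β', σ β} : Finset QQ) ⊆ P.roots.toFinset := by
      intro z hz
      rw [Multiset.mem_toFinset]
      simp only [Finset.mem_insert, Finset.mem_singleton] at hz
      rcases hz with rfl | rfl | rfl
      · exact hroot _ hα'
      · exact hroot _ hβ'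
      · exact hroot _ h1
    have h5 := Finset.card_le_card h4
    rw [Finset.card_eq_three.2 ⟨α', β', σ β, hne', h2.symm, fun h6 => hno h6.symm, rfl⟩] at h5
    have h6 := Multiset.toFinset_card_le P.roots
    have h7 := P.card_roots'
    have h8 : P.natDegree = f.natDegree := hf.natDegree_map _
    omega
  · obtain ⟨α0, hα0, step⟩ := step_fix q₂ Y hY₂ f hf h (by omega) hh hhi hfh
    obtain ⟨σ1, h1', h1Y⟩ := htr α α0 hα hα0
    obtain ⟨σ2, h2', h2Y⟩ := htr α' α0 hα' hα0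
    obtain ⟨σ3, h3, h4, h3Y⟩ := step (σ1 β) (σ2 β') (root_map f _ _ hβ) (root_map f _ _ hβ')
      (fun h5 => hne (σ1.injective (h1'.trans h5.symm)))
      (fun h5 => hne' (σ2.injective (h2'.trans h5.symm)))
    refine ⟨σ2.symm.trans (AlgEquiv.refl) |> fun s => (σ1.trans σ3).trans s, ?_, ?_, ?_⟩
    · change σ2.symm (σ3 (σ1 α)) = α'
      rw [h1', h3, ← h2', AlgEquiv.symm_apply_apply]
    · change σ2.symm (σ3 (σ1 β)) = β'
      rw [h4, AlgEquiv.symm_apply_apply]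
    · intro y hy
      change σ2.symm (σ3 (σ1 y)) = y
      rw [h1Y y hy, h3Y y hy]
      conv_lhs => rw [← h2Y y hy]
      exact σ2.symm_apply_apply y

/-- Transitivity of the stabilizer of `Y`. -/
theorem tr_fix (Y : Set QQ) (f : ℤ[X]) (hf : f.Monic)
    (q₁ : ℕ) [Fact q₁.Prime] (hY₁ : Rat' q₁ Y)
    (hirr : Irreducible (f.map (Int.castRingHom ℤ_[q₁])))
    (α α' : QQ) (hα : aeval α f = 0) (hα' : aeval α' f = 0) :
    ∃ σ : QQ ≃ₐ[ℚ] QQ, σ α = α' ∧ ∀ y ∈ Y, σ y = y :=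
  trans_fix q₁ Y hY₁ f hf hirr α α' hα hα'

end Pool.Agent.H21.NQ
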