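import Pool.Agent.H21.NP.Dir

/-!
# From relations to Tate classes
-/

set_option autoImplicit false
set_option linter.unusedSectionVars false

universe u

namespace Pool.Agent.H21.NQ

open NumberField Module Pool.Agent.H925R2 Pool.Agent.H485R3 Pool.Agent.H204R3.CM
  Pool.Agent.H868R3.TwoOdd Pool.Agent.H194R3.CM Pool.Agent.H194R3.Tate Pool.Agent.Helper33Dom
  Pool.Agent.H21.TC Pool.Agent.H21.NP

section

variable {F : Type} [Field F] [NumberField F] [IsCMField F]
  {L : Type*} [Field L] [NumberField L] [IsGalois ℚ L] (p : ℕ) [Fact p.Prime]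

/-- There are no relations, for all transitive groups of permutations of the `2 g` points and for all
functions with the given values without coincidences. -/
def NoRel {g : ℕ} (m : Fin g → ℚ) : Prop :=
  ∀ (X : Type) [Fintype X] (P : Subgroup (Equiv.Perm X)) (bar : X → X) (w : X → ℚ),
    (∀ x, bar (bar x) = x) → (∀ x, bar x ≠ x) → (∀ σ ∈ P, ∀ x, σ (bar x) = bar (σ x)) →
    (∀ x y : X, ∃ σ ∈ P, σ x = y) → (∀ x, w (bar x) = - w x) →
    (Finset.univ : Finset X).val.map (fun x => |w x|) =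
      2 • (Finset.univ : Finset (Fin g)).val.map (fun j => |m j|) →
    Fintype.card X = 2 * g → (∀ x y, (∀ σ ∈ P, w (σ x) = w (σ y)) → x = y) →
    ∀ c ∈ RelS P bar w, c = 0

/-- Sufficiency. -/
theorem onlyLefschetz_of_noRel (Ω : Type u) [Field Ω] [IsAlgClosed Ω] [CharZero Ω] (a : ℕ)
    (ha : 0 < a) (π : F) (hW : IsWeilNumber (p ^ a) π)
    (hgen : ∀ n : ℕ, 0 < n → IntermediateField.adjoin ℚ {π ^ n} = ⊤) {g : ℕ} (s : Fin g → ℚ)
    (hs : HasSlopes p a π s) (hcond : (∃ j, s j ≠ 1 / 2) → NoRel (fun j => 1 - 2 * s j)) :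
    OnlyLefschetz Ω (p ^ a) π := by
  classical
  obtain ⟨L, _, _, j, h⟩ := exists_galois (fun _ : Unit => F)
  replace h := h ()
  let e : L →ₐ[ℚ] PadicAlgCl p := IsAlgClosed.lift
  refine (criterion p j h e a π hW Ω).1 ?_
  have hp : p.Prime := Fact.out
  have hp1 : (1 : ℝ) < p := by exact_mod_cast hp.one_lt
  have hlog : 0 < Real.log p := Real.log_pos hp1
  have ha' : (0 : ℝ) < a := by exact_mod_cast ha
  have hk : (a : ℝ) * Real.log p ≠ 0 := (mul_pos ha' hlog).ne'
  have hweil : ∀ φ : F →+* ℂ, ‖φ π‖ ^ 2 = (((p : ℚ) ^ a : ℚ) : ℝ) := by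
    intro φ
    rw [hW.2 φ]
    push_cast
    rfl
  obtain ⟨w, hw, hm, hcard⟩ := exists_weights p j h e a ha π s hs
  let X := F →+* L
  have hwodd : ∀ x : X, w (cbar x) = - w x := by
    intro x
    have h1 := uvec_cbar p e a π hweil x
    rw [hw, hw, ← neg_mul] at h1
    exact_mod_cast mul_right_cancel₀ hk h1
  let P : Subgroup (Equiv.Perm X) := (MulAction.toPermHom (L ≃ₐ[ℚ] L) X).range
  have hcomm : ∀ σ ∈ P, ∀ x : X, σ (cbar x) = cbar (σ x) := by
    rintro _ ⟨g, rfl⟩ x
    exact smul_cbar' g x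
  have htr : ∀ x y : X, ∃ σ ∈ P, σ x = y := by
    intro x y
    obtain ⟨g, rfl⟩ := MulAction.exists_smul_eq (L ≃ₐ[ℚ] L) x y
    exact ⟨_, ⟨g, rfl⟩, rfl⟩
  have hnc : ∀ x y : X, (∀ σ ∈ P, w (σ x) = w (σ y)) → x = y := by
    intro x y hxy
    refine eq_of_sameClass p e a π hW hgen x y fun g => ?_
    rw [hw, hw]
    have h1 := hxy _ ⟨g, rfl⟩
    have h2 : w (g • x) = w (g • y) := h1
    rw [h2]
  have hcb : ∀ x : X, cbar x ≠ x := by
    intro x hx
    have h1 : ∀ y : X, cbar y = y := by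
      intro y
      obtain ⟨g, rfl⟩ := MulAction.exists_smul_eq (L ≃ₐ[ℚ] L) x y
      rw [← smul_cbar', hx]
    obtain ⟨b, hb⟩ : ∃ b, IsCMField.complexConj F b ≠ b := by
      by_contra hno
      push Not at hno
      apply IsCMField.complexConj_ne_one F
      ext a
      exact hno a
    exact hb (x.injective (RingHom.congr_fun (h1 x) b))
  have hw0 : w ≠ 0 := by
    intro h0
    obtain ⟨φ₀⟩ : Nonempty (F →+* ℂ) := inferInstance
    obtain ⟨x, -⟩ := h φ₀
    apply hcb x
    apply hnc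
    intro σ _
    rw [h0]
    rfl
  intro c hc hrel x₀
  have hcls : Finset.univ.filter (fun y => SameClass (uvec p e a π) y x₀) = {x₀} := by
    ext y
    rw [Finset.mem_filter, Finset.mem_singleton]
    constructor
    · rintro ⟨-, h2⟩
      exact eq_of_sameClass p e a π hW hgen y x₀ h2
    · rintro rfl
      exact ⟨Finset.mem_univ _, fun g => rfl⟩
  rw [hcls, Finset.sum_singleton]
  by_contra hcx
  have hcr : (fun x => (c x : ℚ)) ∈ RelS P (cbar : X → X) w := by
    refine ⟨fun x => ?_, ?_⟩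
    · simp only [hc]
      push_cast
      rfl
    · rintro _ ⟨g, rfl⟩
      have h1 := hrel g
      have h2 : ∑ x : X, (c x : ℝ) * uvec p e a π (g • x) =
          ((∑ x : X, (c x : ℚ) * w (g • x) : ℚ) : ℝ) * (a * Real.log p) := by
        push_cast
        rw [Finset.sum_mul]
        refine Finset.sum_congr rfl fun x _ => ?_
        rw [hw]
        ring
      rw [h2] at h1
      exact_mod_cast (mul_eq_zero.1 h1).resolve_right hk
  have hc0 : (fun x => (c x : ℚ)) ≠ 0 := by
    intro h0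
    apply hcx
    have h1 : (c x₀ : ℚ) = 0 := congrFun h0 x₀
    exact_mod_cast h1
  obtain ⟨i, hi⟩ : ∃ j, s j ≠ 1 / 2 := by
    by_contra hno
    push Not at hno
    apply hw0
    have h4 : ∀ r ∈ (Finset.univ : Finset X).val.map (fun x => |w x|), r = 0 := by
      intro r hr
      rw [hm, Multiset.mem_nsmul, Multiset.mem_map] at hr
      obtain ⟨-, i, -, rfl⟩ := hr
      rw [hno]
      norm_num
    funext x
    exact abs_eq_zero.1 (h4 _ (Multiset.mem_map_of_mem _ (Finset.mem_univ x)))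
  exact hc0 (hcond ⟨i, hi⟩ X P cbar w cbar_cbar hcb hcomm htr hwodd hm hcard hnc _ hcr)

end

end Pool.Agent.H21.NQ
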