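import Pool.Agent.H21.NQ.GridNot
import Pool.Agent.H21.NP.Zero

/-!
# Arrangements with equal signed sums
-/

set_option autoImplicit false
set_option linter.unusedSectionVars false

universe u

namespace Pool.Agent.H21.NQ

open NumberField Module Pool.Agent.H21.TC Pool.Agent.H21.NP

/-- The `g₁ g₂` pairs of slopes can be arranged in `g₁` rows of `g₂` pairs such that, with suitable
signs, the sums of the differences `1 - 2 s j` over the rows are equal. -/
def EqualSums (g₁ g₂ : ℕ) {g : ℕ} (s : Fin g → ℚ) : Prop :=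
  ∃ (e : Fin g₁ × Fin g₂ ≃ Fin g) (ε : Fin g → ℤˣ) (u : ℚ),
    ∀ i, ∑ j, ((ε (e (i, j)) : ℤ) : ℚ) * (1 - 2 * s (e (i, j))) = u

variable {g₁ g₂ g : ℕ} {s : Fin g → ℚ}

theorem zeroSum_of_zero (e : Fin g₁ × Fin g₂ ≃ Fin g) (ε : Fin g → ℤˣ)
    (h : ∀ i, ∑ j, ((ε (e (i, j)) : ℤ) : ℚ) * (1 - 2 * s (e (i, j))) = 0) : ZeroSum s := by
  refine ⟨ε, ?_⟩
  rw [← Equiv.sum_comp e, Fintype.sum_prod_type]
  exact Finset.sum_eq_zero fun i _ => h i

/-- Two rows. -/
theorem zeroSum_of_two (e : Fin 2 × Fin g₂ ≃ Fin g) (ε : Fin g → ℤˣ) (u : ℚ)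
    (h : ∀ i, ∑ j, ((ε (e (i, j)) : ℤ) : ℚ) * (1 - 2 * s (e (i, j))) = u) : ZeroSum s := by
  refine ⟨fun x => (if (e.symm x).1 = 0 then 1 else -1) * ε x, ?_⟩
  rw [← Equiv.sum_comp e, Fintype.sum_prod_type, Fin.sum_univ_two]
  simp only [Equiv.symm_apply_apply, if_true, one_ne_zero, if_false, one_mul, neg_mul,
    Units.val_neg, Int.cast_neg, Finset.sum_neg_distrib, h]
  ring

/-- **Equal signed sums.** -/
theorem not_rigid_of_equalSums (Ω : Type u) [Field Ω] [IsAlgClosed Ω] [CharZero Ω] (p : ℕ)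
    [Fact p.Prime] (h₁ : 2 ≤ g₁) (h₂ : 2 ≤ g₂) (s : Fin g → ℚ)
    (hs01 : ∀ j, 0 ≤ s j ∧ s j ≤ 1) (hs : ∃ j, s j ≠ 1 / 2) (h : EqualSums g₁ g₂ s) :
    ¬ Rigid Ω p s := by
  classical
  have hg : 3 ≤ g := by
    obtain ⟨e, -⟩ := h
    have h3 := Fintype.card_congr e
    rw [Fintype.card_prod, Fintype.card_fin, Fintype.card_fin, Fintype.card_fin] at h3
    nlinarith
  have hz : ZeroSum s → ¬ Rigid Ω p s := not_rigid_of_zeroSum Ω p hg s hs01 hs
  obtain ⟨e, ε, u, hsum⟩ := h
  by_cases hu : u = 0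
  · subst hu
    exact hz (zeroSum_of_zero e ε hsum)
  rcases Nat.lt_or_ge g₁ 3 with h3 | h3
  · obtain rfl : g₁ = 2 := by omega
    exact hz (zeroSum_of_two e ε u hsum)
  let i₀ : Fin g₁ := ⟨0, by omega⟩
  let i₁ : Fin g₁ := ⟨1, by omega⟩
  have hi : i₁ ≠ i₀ := by
    intro h
    have := congrArg Fin.val h
    simp [i₀, i₁] at this
  by_cases hrow : ∃ i k j, ((ε (e (i, j)) : ℤ) : ℚ) * (1 - 2 * s (e (i, j))) ≠
      ((ε (e (k, j)) : ℤ) : ℚ) * (1 - 2 * s (e (k, j)))
  · exact not_rigid_grid Ω p h3 h₂ s hs01 e ε u hu hsum hrow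
  push Not at hrow
  by_cases hcol : ∃ j l, ((ε (e (i₀, j)) : ℤ) : ℚ) * (1 - 2 * s (e (i₀, j))) ≠
      ((ε (e (i₀, l)) : ℤ) : ℚ) * (1 - 2 * s (e (i₀, l)))
  · -- exchange two entries of the first row
    obtain ⟨j, l, hjl⟩ := hcol
    let e' : Fin g₁ × Fin g₂ ≃ Fin g := (Equiv.swap (i₀, j) (i₀, l)).trans e
    have hfix : ∀ i, i ≠ i₀ → ∀ k, e' (i, k) = e (i, k) := by
      intro i hii k
      simp only [e', Equiv.trans_apply]
      rw [Equiv.swap_apply_of_ne_of_ne]
      · intro h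
        exact hii (congrArg Prod.fst h)
      · intro h
        exact hii (congrArg Prod.fst h)
    have hrow0 : ∀ k, e' (i₀, k) = e (i₀, Equiv.swap j l k) := by
      intro k
      simp only [e', Equiv.trans_apply]
      congr 1
      by_cases hk : k = j
      · subst hk
        rw [Equiv.swap_apply_left, Equiv.swap_apply_left]
      · by_cases hk' : k = l
        · subst hk'
          rw [Equiv.swap_apply_right, Equiv.swap_apply_right]
        · rw [Equiv.swap_apply_of_ne_of_ne hk hk', Equiv.swap_apply_of_ne_of_ne]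
          · intro h
            exact hk (congrArg Prod.snd h)
          · intro h
            exact hk' (congrArg Prod.snd h)
    refine not_rigid_grid Ω p h3 h₂ s hs01 e' ε u hu ?_ ⟨i₀, i₁, j, ?_⟩
    · intro i
      by_cases hii : i = i₀
      · subst hii
        rw [Finset.sum_congr rfl fun k _ => by rw [hrow0 k],
          Equiv.sum_comp (Equiv.swap j l) fun k => ((ε (e (i₀, k)) : ℤ) : ℚ) *
            (1 - 2 * s (e (i₀, k))), hsum]
      · rw [← hsum i]
        exact Finset.sum_congr rfl fun k _ => by rw [hfix i hii]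
    · rw [hrow0, hfix i₁ hi, Equiv.swap_apply_left, hrow i₁ i₀ j]
      exact fun h => hjl h.symm
  · -- all differences are equal up to the sign
    push Not at hcol
    let j₀ : Fin g₂ := ⟨0, by omega⟩
    let j₁ : Fin g₂ := ⟨1, by omega⟩
    have hj : j₁ ≠ j₀ := by
      intro h
      have := congrArg Fin.val h
      simp [j₀, j₁] at this
    let t : ℚ := ((ε (e (i₀, j₀)) : ℤ) : ℚ) * (1 - 2 * s (e (i₀, j₀)))
    have ht : ∀ i j, ((ε (e (i, j)) : ℤ) : ℚ) * (1 - 2 * s (e (i, j))) = t := fun i j =>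
      (hrow i i₀ j).trans (hcol j j₀)
    have ht0 : t ≠ 0 := by
      intro h
      apply hu
      rw [← hsum i₀]
      exact Finset.sum_eq_zero fun j _ => by rw [ht, h]
    let f : Fin g₁ → Fin g₂ := fun i => if i = i₀ then j₀ else j₁
    let ε' : Fin g → ℤˣ := fun x => (if (e.symm x).2 = f (e.symm x).1 then -1 else 1) * ε x
    have hε' : ∀ i j, ((ε' (e (i, j)) : ℤ) : ℚ) * (1 - 2 * s (e (i, j))) =
        if j = f i then -t else t := by
      intro i j
      simp only [ε', Equiv.symm_apply_apply]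
      by_cases h : j = f i
      · rw [if_pos h, if_pos h, ← ht i j]
        push_cast
        ring
      · rw [if_neg h, if_neg h, ← ht i j, one_mul]
    have hsum' : ∀ i, ∑ j, ((ε' (e (i, j)) : ℤ) : ℚ) * (1 - 2 * s (e (i, j))) = (g₂ - 2) * t := by
      intro i
      rw [Finset.sum_congr rfl fun j _ => hε' i j]
      have h4 : ∀ j, (if j = f i then -t else t) = t + (if j = f i then -(2 * t) else 0) := by
        intro j
        split_ifs
        · ring
        · ring
      rw [Finset.sum_congr rfl fun j _ => h4 j, Finset.sum_add_distrib, Finset.sum_ite_eq',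
        if_pos (Finset.mem_univ _), Finset.sum_const, Finset.card_univ, Fintype.card_fin,
        nsmul_eq_mul]
      ring
    by_cases h2 : (g₂ : ℚ) - 2 = 0
    · apply hz
      refine zeroSum_of_zero e ε' fun i => ?_
      rw [hsum', h2, zero_mul]
    · refine not_rigid_grid Ω p h3 h₂ s hs01 e ε' _ (mul_ne_zero h2 ht0) hsum' ⟨i₀, i₁, j₀, ?_⟩
      rw [hε', hε', if_pos (by simp only [f, if_true]), if_neg (by
        simp only [f, if_neg hi]
        exact hj.symm)]
      intro h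
      apply ht0
      linarith

end Pool.Agent.H21.NQ
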