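import Pool.Agent.H21.NP.Tot

/-!
# CM fields `K₀(√(1 - 8 p))` for a totally real field `K₀` with several generators
-/

set_option autoImplicit false
set_option linter.unusedSectionVars false

namespace Pool.Agent.H21.NQ

open NumberField Module Pool.Agent.N90.FD Pool.Agent.H21.TC Pool.Agent.H21.NP

open IntermediateField in
/-- **The field.** -/
theorem exists_field (p : ℕ) [Fact p.Prime] {I R : Type} [Fintype I] [Finite R] (i0 : I)
    (θ : I → R → QQ) (hinj : Function.Injective θ)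
    (hreal : ∀ i r, starRingEnd ℂ (j0 (θ i r)) = j0 (θ i r))
    (hperm : ∀ σ : QQ ≃ₐ[ℚ] QQ, ∃ π : Equiv.Perm I, ∀ i r, σ (θ i r) = θ (π i) r)
    (htrans : ∀ i, ∃ σ : QQ ≃ₐ[ℚ] QQ, ∀ r, σ (θ i0 r) = θ i r)
    (hpad : ∀ (e0 : QQ →ₐ[ℚ] PadicAlgCl p) (r : R), ∃ y : ℚ_[p], e0 (θ i0 r) =
      algebraMap ℚ_[p] (PadicAlgCl p) y) :
    ∃ (F : Type) (_ : Field F) (_ : NumberField F) (_ : IsCMField F)
      (T : I ⊕ I ≃ (F →+* ℂ)),
      (∀ i, T (Sum.inr i) = ComplexEmbedding.conjugate (T (Sum.inl i))) ∧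
      Nat.card (F →+* ℚ_[p]) = finrank ℚ F ∧
      (∀ σ ∈ PC F, ∃ (s : QQ ≃ₐ[ℚ] QQ) (π : Equiv.Perm I), (∀ i r, s (θ i r) = θ (π i) r) ∧
        ((∀ i, σ (T (Sum.inl i)) = T (Sum.inl (π i))) ∨
        (∀ i, σ (T (Sum.inl i)) = T (Sum.inr (π i))))) ∧
      ∀ (s : QQ ≃ₐ[ℚ] QQ) (π : Equiv.Perm I), (∀ i r, s (θ i r) = θ (π i) r) →
        ∃ σ ∈ PC F, ∀ i, σ (T (Sum.inl i)) = T (Sum.inl (π i)) := by
  classical
  have hp : p.Prime := Fact.out
  -- the square root
  obtain ⟨β, hβ⟩ := IsAlgClosed.exists_pow_nat_eq (((1 - 8 * (p : ℤ) : ℤ)) : QQ) (n := 2)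
    (by norm_num)
  have hβσ : ∀ σ : QQ ≃ₐ[ℚ] QQ, σ β = β ∨ σ β = -β := by
    intro σ
    apply sq_eq_sq_iff_eq_or_eq_neg.1
    rw [← map_pow, hβ, map_intCast]
  obtain ⟨cc, hcc⟩ := exists_conj
  have hccα : ∀ i r, cc (θ i r) = θ i r := by
    intro i r
    apply j0.injective
    change j0 (cc (θ i r)) = j0 (θ i r)
    rw [hcc, hreal]
  have hβ0 : β ≠ 0 := by
    rintro rfl
    have h1 : (((1 - 8 * (p : ℤ) : ℤ)) : QQ) = 0 := by
      rw [← hβ]
      norm_num
    have h2 : (1 - 8 * (p : ℤ) : ℤ) = 0 := Int.cast_eq_zero.1 h1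
    omega
  have hccβ : cc β = -β := by
    rcases hβσ cc with h1 | h1
    · exfalso
      have h2 := hcc β
      rw [h1] at h2
      have h3 : (j0 β).im = 0 := Complex.conj_eq_iff_im.1 h2.symm
      have h4 : (j0 β) ^ 2 = (((1 - 8 * (p : ℤ) : ℤ)) : ℂ) := by
        rw [← map_pow, hβ, map_intCast]
      have h5 : j0 β = ((j0 β).re : ℂ) := Complex.ext rfl (by rw [h3, Complex.ofReal_im])
      rw [h5] at h4
      have h6 : ((j0 β).re) ^ 2 = (((1 - 8 * (p : ℤ) : ℤ)) : ℝ) := by exact_mod_cast h4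
      push_cast at h6
      have h7 : (2 : ℝ) ≤ p := by exact_mod_cast hp.two_le
      nlinarith [sq_nonneg (j0 β).re]
    · exact h1
  have hjβ : j0 β ≠ -j0 β := by
    intro h1
    apply hβ0
    apply j0.injective
    rw [map_zero]
    have h2 : 2 * j0 β = 0 := by linear_combination h1
    exact (mul_eq_zero.1 h2).resolve_left two_ne_zero
  -- the field
  let S : Set QQ := insert β (Set.range (θ i0))
  let F : IntermediateField ℚ QQ := IntermediateField.adjoin ℚ S
  have hSα : ∀ r, θ i0 r ∈ S := fun r => Or.inr ⟨r, rfl⟩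
  have hSβ : β ∈ S := Or.inl rfl
  have hfd' : FiniteDimensional ℚ F := by
    have : Finite S := ((Set.finite_range (θ i0)).insert β).to_subtype
    exact IntermediateField.finiteDimensional_adjoin fun x _ => Algebra.IsIntegral.isIntegral x
  have hNF : NumberField F := NumberField.mk
  let a1 : R → F := fun r => ⟨θ i0 r, IntermediateField.subset_adjoin ℚ S (hSα r)⟩
  let b1 : F := ⟨β, IntermediateField.subset_adjoin ℚ S hSβ⟩
  have hext : ∀ φ ψ : F →+* ℂ, (∀ r, φ (a1 r) = ψ (a1 r)) → φ b1 = ψ b1 → φ = ψ := by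
    intro φ ψ h1 h2
    refine adjoin_hom_ext φ ψ ?_
    rintro x (rfl | ⟨r, rfl⟩)
    · exact h2
    · exact h1 r
  -- embeddings come from automorphisms of `QQ`
  have hemb : ∀ φ : F →+* ℂ, ∃ s : QQ ≃ₐ[ℚ] QQ, ∀ x : F, φ x = j0 (s x) := by
    intro φ
    let φ' : F →ₐ[ℚ] ℂ := φ.toRatAlgHom
    let _ : Algebra F ℂ := φ.toAlgebra
    have hst : IsScalarTower ℚ F ℂ := IsScalarTower.of_algebraMap_eq fun x => (φ'.commutes x).symm
    let τ0 : QQ →ₐ[F] ℂ := IsAlgClosed.lift
    let τ : QQ →ₐ[ℚ] ℂ := τ0.restrictScalars ℚ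
    have hτ : ∀ x : F, τ x = φ x := fun x => τ0.commutes x
    obtain ⟨s, hs⟩ := exists_lift τ
    exact ⟨s, fun x => by rw [← hτ, hs]⟩
  have hval : ∀ φ : F →+* ℂ, ∃ i, (∀ r, φ (a1 r) = j0 (θ i r)) ∧
      (φ b1 = j0 β ∨ φ b1 = -j0 β) := by
    intro φ
    obtain ⟨s, hs⟩ := hemb φ
    obtain ⟨π, hπ⟩ := hperm s
    refine ⟨π i0, ?_, ?_⟩
    · intro r
      rw [hs]
      change j0 (s (θ i0 r)) = _
      rw [hπ]
    · rw [hs]
      change j0 (s β) = _ ∨ j0 (s β) = _
      rcases hβσ s with h1 | h1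
      · left
        rw [h1]
      · right
        rw [h1, map_neg]
  -- complex conjugation
  have hccF : ∀ x : F, cc x ∈ F := by
    have hle : F ≤ F.comap (cc : QQ →ₐ[ℚ] QQ) := by
      rw [IntermediateField.adjoin_le_iff]
      rintro x (rfl | ⟨r, rfl⟩)
      · change cc x ∈ F
        rw [hccβ]
        exact neg_mem b1.2
      · change cc (θ i0 r) ∈ F
        rw [hccα]
        exact (a1 r).2
    exact fun x => hle x.2
  let cF : F →ₐ[ℚ] F := ((cc : QQ →ₐ[ℚ] QQ).comp F.val).codRestrict F.toSubalgebra hccF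
  let c : F ≃ₐ[ℚ] F := AlgEquiv.ofBijective cF (AlgHom.bijective _)
  have hca : ∀ r, c (a1 r) = a1 r := fun r => Subtype.ext (hccα i0 r)
  have hcb : c b1 = -b1 := Subtype.ext hccβ
  have hc : ∀ (φ : F →+* ℂ) (x : F), φ (c x) = starRingEnd ℂ (φ x) := by
    intro φ
    have h1 : φ.comp (c : F →+* F) = (starRingEnd ℂ).comp φ := by
      obtain ⟨i, h2, h3⟩ := hval φ
      apply hext
      · intro r
        change φ (c (a1 r)) = starRingEnd ℂ (φ (a1 r))
        rw [hca, h2, hreal]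
      · change φ (c b1) = starRingEnd ℂ (φ b1)
        rw [hcb, map_neg]
        have h4 : starRingEnd ℂ (j0 β) = -j0 β := by rw [← hcc, hccβ, map_neg]
        rcases h3 with h3 | h3
        · rw [h3, h4]
        · rw [h3, map_neg, h4]
    exact fun x => RingHom.congr_fun h1 x
  have hc1 : c ≠ 1 := by
    intro h1
    rw [h1] at hcb
    have h2 : β = -β := congrArg Subtype.val hcb
    apply hjβ
    rw [← map_neg, ← h2]
  have hCM : IsCMField F := isCM_of_conj F c hc hc1
  -- the enumeration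
  have hs : ∀ i, ∃ s : QQ ≃ₐ[ℚ] QQ, (∀ r, s (θ i0 r) = θ i r) ∧ s β = β := by
    intro i
    obtain ⟨s, hs⟩ := htrans i
    rcases hβσ s with h1 | h1
    · exact ⟨s, hs, h1⟩
    · refine ⟨cc * s, ?_, ?_⟩
      · intro r
        rw [AlgEquiv.mul_apply, hs, hccα]
      · rw [AlgEquiv.mul_apply, h1, map_neg, hccβ, neg_neg]
  choose s hsα hsβ using hs
  let t : I → (F →+* ℂ) := fun i => ((j0 : QQ →+* ℂ).comp (s i : QQ →+* QQ)).comp
    (F.val : F →+* QQ)
  have hta : ∀ i r, t i (a1 r) = j0 (θ i r) := by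
    intro i r
    change j0 (s i (θ i0 r)) = _
    rw [hsα]
  have htb : ∀ i, t i b1 = j0 β := by
    intro i
    change j0 (s i β) = _
    rw [hsβ]
  have htca : ∀ i r, ComplexEmbedding.conjugate (t i) (a1 r) = j0 (θ i r) := by
    intro i r
    change starRingEnd ℂ (t i (a1 r)) = _
    rw [hta, hreal]
  have htcb : ∀ i, ComplexEmbedding.conjugate (t i) b1 = -j0 β := by
    intro i
    change starRingEnd ℂ (t i b1) = _
    rw [htb, ← hcc, hccβ, map_neg]
  have hji : ∀ i k, (∀ r, j0 (θ i r) = j0 (θ k r)) → i = k := fun i k h1 =>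
    hinj (funext fun r => j0.injective (h1 r))
  let t' : I ⊕ I → (F →+* ℂ) := Sum.elim t (fun i => ComplexEmbedding.conjugate (t i))
  have ht'i : Function.Injective t' := by
    rintro (i | i) (k | k) hik
    · have h1 : ∀ r, j0 (θ i r) = j0 (θ k r) := by
        intro r
        have h1 := RingHom.congr_fun hik (a1 r)
        simp only [t', Sum.elim_inl, hta] at h1
        exact h1
      rw [hji _ _ h1]
    · exfalso
      have h1 := RingHom.congr_fun hik b1
      simp only [t', Sum.elim_inl, Sum.elim_inr, htb, htcb] at h1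
      exact hjβ h1
    · exfalso
      have h1 := RingHom.congr_fun hik b1
      simp only [t', Sum.elim_inl, Sum.elim_inr, htb, htcb] at h1
      exact hjβ h1.symm
    · have h1 : ∀ r, j0 (θ i r) = j0 (θ k r) := by
        intro r
        have h1 := RingHom.congr_fun hik (a1 r)
        simp only [t', Sum.elim_inr, htca] at h1
        exact h1
      rw [hji _ _ h1]
  have ht's : Function.Surjective t' := by
    intro φ
    obtain ⟨i, h1, h2⟩ := hval φ
    rcases h2 with h2 | h2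
    · exact ⟨Sum.inl i, hext _ _ (fun r => by rw [h1]; exact hta i r) (by rw [h2]; exact htb i)⟩
    · exact ⟨Sum.inr i, hext _ _ (fun r => by rw [h1]; exact htca i r) (by rw [h2]; exact htcb i)⟩
  let T : I ⊕ I ≃ (F →+* ℂ) := Equiv.ofBijective t' ⟨ht'i, ht's⟩
  refine ⟨F, inferInstance, hNF, hCM, T, fun i => rfl, ?_, ?_, ?_⟩
  · -- the prime `p` splits completely
    apply card_padic
    apply padic_values
    intro e0 σ σ' hσ
    have hα' : ∀ r, σ' (θ i0 r) = θ i0 r := by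
      intro r
      obtain ⟨y, hy⟩ := hpad e0 r
      apply e0.injective
      change e0 (σ' (θ i0 r)) = e0 (θ i0 r)
      rw [hσ, hy]
      exact σ.commutes _
    have hβ' : σ' β = β := by
      obtain ⟨y, hy⟩ := sqrt_one_sub (p := p)
      apply e0.injective
      change e0 (σ' β) = e0 β
      rw [hσ]
      refine fix_of_sq p _ (y : ℚ_[p]) ?_ σ
      have h1 := congrArg (fun y : ℤ_[p] => (y : ℚ_[p])) hy
      simp only [PadicInt.coe_pow, PadicInt.coe_sub, PadicInt.coe_mul, PadicInt.coe_one,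
        PadicInt.coe_natCast] at h1
      have h4 : (y : ℚ_[p]) ^ 2 = (((1 - 8 * (p : ℤ) : ℤ)) : ℚ_[p]) := by
        rw [h1]
        push_cast
        rfl
      rw [← map_pow, ← map_pow, hβ, h4, map_intCast, map_intCast]
    have h3 : ((σ' : QQ →+* QQ).comp (F.val : F →+* QQ)) = (F.val : F →+* QQ) := by
      refine adjoin_hom_ext _ _ ?_
      rintro x (rfl | ⟨r, rfl⟩)
      · exact hβ'
      · exact hα' r
    exact fun x hx => RingHom.congr_fun h3 ⟨x, hx⟩
  · -- the action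
    rintro _ ⟨τ, rfl⟩
    obtain ⟨σ', hσ'⟩ := exists_lift ((τ : ℂ →+* ℂ).toRatAlgHom.comp j0)
    have hσ'' : ∀ x, τ (j0 x) = j0 (σ' x) := hσ'
    obtain ⟨π, hπ⟩ := hperm σ'
    refine ⟨σ', π, hπ, ?_⟩
    rcases hβσ σ' with h1 | h1
    · left
      intro i
      apply hext
      · intro r
        change τ (t i (a1 r)) = t (π i) (a1 r)
        rw [hta, hta, hσ'', hπ]
      · change τ (t i b1) = t (π i) b1
        rw [htb, htb, hσ'', h1]
    · right
      intro i
      apply hext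
      · intro r
        change τ (t i (a1 r)) = ComplexEmbedding.conjugate (t (π i)) (a1 r)
        rw [hta, htca, hσ'', hπ]
      · change τ (t i b1) = ComplexEmbedding.conjugate (t (π i)) b1
        rw [htb, htcb, hσ'', h1, map_neg]
  · -- existence
    intro s' π hπ
    obtain ⟨s', h1, h3⟩ : ∃ s' : QQ ≃ₐ[ℚ] QQ, (∀ i r, s' (θ i r) = θ (π i) r) ∧ s' β = β := by
      rcases hβσ s' with h4 | h4
      · exact ⟨s', hπ, h4⟩
      · refine ⟨cc * s', ?_, ?_⟩
        · intro i r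
          rw [AlgEquiv.mul_apply, hπ, hccα]
        · rw [AlgEquiv.mul_apply, h4, map_neg, hccβ, neg_neg]
    obtain ⟨τ, hτ⟩ := Pool.Agent.H977R3.CM.exists_aut (j0 : QQ →+* ℂ) (s' : QQ ≃+* QQ)
    have hτ' : ∀ x, τ (j0 x) = j0 (s' x) := hτ
    refine ⟨permOf F τ, permOf_mem τ, ?_⟩
    intro i
    apply hext
    · intro r
      change τ (t i (a1 r)) = t (π i) (a1 r)
      rw [hta, hta, hτ', h1]
    · change τ (t i b1) = t (π i) b1
      rw [htb, htb, hτ', h3]

end Pool.Agent.H21.NQ
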