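import Pool.Agent.H21.NQ.Inf
import Pool.Agent.H21.NQ.FieldOf

/-!
# CM fields whose embeddings form a grid
-/

set_option autoImplicit false
set_option linter.unusedSectionVars false

namespace Pool.Agent.H21.NQ

open NumberField Module Pool.Agent.N90.FD Pool.Agent.H21.TC Pool.Agent.H21.NP

/-- **The field.** -/
theorem exists_grid (p : ℕ) [Fact p.Prime] (g₁ g₂ : ℕ) (h₁ : 2 ≤ g₁) (h₂ : 2 ≤ g₂) :
    ∃ (F : Type) (_ : Field F) (_ : NumberField F) (_ : IsCMField F)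
      (T : (Fin g₁ × Fin g₂) ⊕ (Fin g₁ × Fin g₂) ≃ (F →+* ℂ)),
      (∀ i, T (Sum.inr i) = ComplexEmbedding.conjugate (T (Sum.inl i))) ∧
      Nat.card (F →+* ℚ_[p]) = finrank ℚ F ∧
      (∀ σ ∈ PC F, ∃ (π₁ : Equiv.Perm (Fin g₁)) (π₂ : Equiv.Perm (Fin g₂)),
        (∀ i, σ (T (Sum.inl i)) = T (Sum.inl (π₁ i.1, π₂ i.2))) ∨
        (∀ i, σ (T (Sum.inl i)) = T (Sum.inr (π₁ i.1, π₂ i.2)))) ∧
      ∀ x y x' y' : Fin g₁ × Fin g₂, (x.1 = y.1 ↔ x'.1 = y'.1) → (x.2 = y.2 ↔ x'.2 = y'.2) →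
        ∃ σ ∈ PC F, σ (T (Sum.inl x)) = T (Sum.inl x') ∧ σ (T (Sum.inl y)) = T (Sum.inl y') := by
  classical
  obtain ⟨α, hαi, hαR, hαP, hαp, hαt, hαd⟩ := exists_roots p g₁ h₁ ∅ Set.finite_empty
  obtain ⟨β, hβi, hβR, hβP, hβp, hβt, hβd⟩ := exists_roots p g₂ h₂ (Set.range α)
    (Set.finite_range α)
  let I := Fin g₁ × Fin g₂
  let θ : I → Bool → QQ := fun i r => if r then α i.1 else β i.2
  have hθt : ∀ i : I, θ i true = α i.1 := fun i => rfl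
  have hθf : ∀ i : I, θ i false = β i.2 := fun i => rfl
  let i0 : I := (⟨0, by omega⟩, ⟨0, by omega⟩)
  have hinj : Function.Injective θ := by
    intro i k hik
    have e1 : α i.1 = α k.1 := congrFun hik true
    have e2 : β i.2 = β k.2 := congrFun hik false
    exact Prod.ext (hαi e1) (hβi e2)
  have key : ∀ (s : QQ ≃ₐ[ℚ] QQ) (π₁ : Equiv.Perm (Fin g₁)) (π₂ : Equiv.Perm (Fin g₂)),
      (∀ i, s (α i) = α (π₁ i)) → (∀ i, s (β i) = β (π₂ i)) →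
      ∀ (i : I) r, s (θ i r) = θ ((Equiv.prodCongr π₁ π₂) i) r := by
    intro s π₁ π₂ h1 h2 i r
    cases r
    · exact h2 _
    · exact h1 _
  -- two points
  have two : ∀ x y x' y' : I, (x.1 = y.1 ↔ x'.1 = y'.1) → (x.2 = y.2 ↔ x'.2 = y'.2) →
      ∃ s : QQ ≃ₐ[ℚ] QQ, s (α x.1) = α x'.1 ∧ s (α y.1) = α y'.1 ∧ s (β x.2) = β x'.2 ∧
        s (β y.2) = β y'.2 := by
    intro x y x' y' e1 e2
    obtain ⟨s1, h1, h2⟩ : ∃ s : QQ ≃ₐ[ℚ] QQ, s (α x.1) = α x'.1 ∧ s (α y.1) = α y'.1 := by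
      by_cases h : x.1 = y.1
      · obtain ⟨s, hs, -⟩ := hαt x.1 x'.1
        exact ⟨s, hs, by rw [← h, ← e1.1 h]; exact hs⟩
      · obtain ⟨s, hs, hs', -⟩ := hαd x.1 y.1 x'.1 y'.1 h (fun h' => h (e1.2 h'))
        exact ⟨s, hs, hs'⟩
    obtain ⟨π₂, hπ₂⟩ := hβP s1
    obtain ⟨s2, h3, h4, h5⟩ : ∃ s : QQ ≃ₐ[ℚ] QQ, s (β (π₂ x.2)) = β x'.2 ∧
        s (β (π₂ y.2)) = β y'.2 ∧ ∀ y ∈ Set.range α, s y = y := by
      by_cases h : x.2 = y.2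
      · obtain ⟨s, hs, hs'⟩ := hβt (π₂ x.2) x'.2
        exact ⟨s, hs, by rw [← h, ← e2.1 h]; exact hs, hs'⟩
      · exact hβd _ _ _ _ (fun h' => h (π₂.injective h')) (fun h' => h (e2.2 h'))
    refine ⟨s1.trans s2, ?_, ?_, ?_, ?_⟩
    · change s2 (s1 (α x.1)) = _
      rw [h1]
      exact h5 _ ⟨_, rfl⟩
    · change s2 (s1 (α y.1)) = _
      rw [h2]
      exact h5 _ ⟨_, rfl⟩
    · change s2 (s1 (β x.2)) = _
      rw [hπ₂, h3]
    · change s2 (s1 (β y.2)) = _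
      rw [hπ₂, h4]
  obtain ⟨F, i1, i2, i3, T, hT, hsplit, hact, hex⟩ := exists_field p i0 θ hinj (by
      intro i r
      cases r
      · exact hβR _
      · exact hαR _) (by
      intro σ
      obtain ⟨π₁, hπ₁⟩ := hαP σ
      obtain ⟨π₂, hπ₂⟩ := hβP σ
      exact ⟨Equiv.prodCongr π₁ π₂, key σ π₁ π₂ hπ₁ hπ₂⟩) (by
      intro i
      obtain ⟨s, hs1, -, hs2, -⟩ := two i0 i0 i i (by simp) (by simp)
      refine ⟨s, fun r => ?_⟩
      cases r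
      · exact hs2
      · exact hs1) (by
      intro e0 r
      cases r
      · exact hβp e0 _
      · exact hαp e0 _)
  refine ⟨F, i1, i2, i3, T, hT, hsplit, ?_, ?_⟩
  · intro σ hσ
    obtain ⟨s, π, hπ, hσπ⟩ := hact σ hσ
    obtain ⟨π₁, hπ₁⟩ := hαP s
    obtain ⟨π₂, hπ₂⟩ := hβP s
    have hππ : ∀ i : I, π i = (π₁ i.1, π₂ i.2) := by
      intro i
      apply hinj
      funext r
      rw [← hπ]
      exact key s π₁ π₂ hπ₁ hπ₂ i r
    refine ⟨π₁, π₂, ?_⟩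
    rcases hσπ with h | h
    · left
      intro i
      rw [h, hππ]
    · right
      intro i
      rw [h, hππ]
  · intro x y x' y' e1 e2
    obtain ⟨s, hs1, hs2, hs3, hs4⟩ := two x y x' y' e1 e2
    obtain ⟨π₁, hπ₁⟩ := hαP s
    obtain ⟨π₂, hπ₂⟩ := hβP s
    obtain ⟨σ, hσ, hσT⟩ := hex s (Equiv.prodCongr π₁ π₂) (key s π₁ π₂ hπ₁ hπ₂)
    refine ⟨σ, hσ, ?_, ?_⟩
    · rw [hσT]
      congr 2
      refine Prod.ext ?_ ?_
      · exact hαi ((hπ₁ _).symm.trans hs1)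
      · exact hβi ((hπ₂ _).symm.trans hs3)
    · rw [hσT]
      congr 2
      refine Prod.ext ?_ ?_
      · exact hαi ((hπ₁ _).symm.trans hs2)
      · exact hβi ((hπ₂ _).symm.trans hs4)

end Pool.Agent.H21.NQ
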