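import Pool.Agent.H21.NQ.Grid
import Pool.Agent.H21.NP.Exot

/-!
# Equal signed sums in the rows of a grid
-/

set_option autoImplicit false
set_option linter.unusedSectionVars false

universe u

namespace Pool.Agent.H21.NQ

open NumberField Module Pool.Agent.H21.TC Pool.Agent.H21.NP

/-- There is no function on a grid with at least three rows, with the same nonzero sum in all rows,
with different rows, and with a correlation. -/
theorem grid_alg {g₁ g₂ : ℕ} (h₁ : 3 ≤ g₁) (h₂ : 2 ≤ g₂) (U : Fin g₁ × Fin g₂ → ℚ) (u : ℚ)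
    (hu : u ≠ 0) (hsum : ∀ i, ∑ j, U (i, j) = u) (hne : ∃ i k j, U (i, j) ≠ U (k, j))
    (a b : Fin g₁ × Fin g₂) (hab : a ≠ b) (δ : ℚ)
    (hδ : δ = 1 ∨ δ = -1)
    (hall : ∀ x y : Fin g₁ × Fin g₂, (a.1 = b.1 ↔ x.1 = y.1) → (a.2 = b.2 ↔ x.2 = y.2) →
      U x = δ * U y) : False := by
  classical
  have third : ∀ i k : Fin g₁, ∃ m, m ≠ i ∧ m ≠ k := by
    intro i k
    by_contra hno
    push Not at hno
    have h5 : (Finset.univ : Finset (Fin g₁)) ⊆ {i, k} := by
      intro m _
      rw [Finset.mem_insert, Finset.mem_singleton]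
      by_cases hm : m = i
      · exact Or.inl hm
      · exact Or.inr (hno m hm)
    have h6 := Finset.card_le_card h5
    rw [Finset.card_univ, Fintype.card_fin] at h6
    have h7 := Finset.card_le_two (a := i) (b := k)
    omega
  have other : ∀ j : Fin g₂, ∃ l, l ≠ j := by
    intro j
    have : Nontrivial (Fin g₂) := Fin.nontrivial_iff_two_le.2 (by omega)
    exact exists_ne j
  have hz : ∀ i, (∀ j, U (i, j) = 0) → False := by
    intro i h
    apply hu
    rw [← hsum i]
    exact Finset.sum_eq_zero fun j _ => h j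
  obtain ⟨i0, k0, j0, hne0⟩ := hne
  by_cases e1 : a.1 = b.1
  · have e2 : a.2 ≠ b.2 := fun h => hab (Prod.ext e1 h)
    have h3 : ∀ i j l, j ≠ l → U (i, j) = δ * U (i, l) := fun i j l hjl =>
      hall (i, j) (i, l) (iff_of_true e1 rfl) (iff_of_false e2 hjl)
    rcases hδ with rfl | rfl
    · -- constant
      have h4 : ∀ i j l, U (i, j) = U (i, l) := by
        intro i j l
        by_cases hjl : j = l
        · rw [hjl]
        · rw [h3 i j l hjl, one_mul]
      have h5 : ∀ i l, (g₂ : ℚ) * U (i, l) = u := by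
        intro i l
        rw [← hsum i, Finset.sum_congr rfl fun j _ => h4 i j l, Finset.sum_const, Finset.card_univ,
          Fintype.card_fin, nsmul_eq_mul]
      have hg : (g₂ : ℚ) ≠ 0 := by
        have : g₂ ≠ 0 := by omega
        exact_mod_cast this
      exact hne0 (mul_left_cancel₀ hg ((h5 i0 j0).trans (h5 k0 j0).symm))
    · have h5 : ∀ i l, (2 - (g₂ : ℚ)) * U (i, l) = u := by
        intro i l
        rw [← hsum i, ← Finset.add_sum_erase _ _ (Finset.mem_univ l),
          Finset.sum_congr rfl fun j hj => h3 i j l (Finset.ne_of_mem_erase hj), Finset.sum_const,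
          Finset.card_erase_of_mem (Finset.mem_univ l), Finset.card_univ, Fintype.card_fin,
          nsmul_eq_mul]
        have : ((g₂ - 1 : ℕ) : ℚ) = g₂ - 1 := by
          rw [Nat.cast_sub (by omega)]
          norm_num
        rw [this]
        ring
      have hg : (2 - (g₂ : ℚ)) ≠ 0 := by
        intro h
        apply hu
        rw [← h5 i0 j0, h, zero_mul]
      apply hz i0
      intro j
      obtain ⟨l, hl⟩ := other j
      have e3 : U (i0, j) = U (i0, l) := mul_left_cancel₀ hg ((h5 i0 j).trans (h5 i0 l).symm)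
      have e4 := h3 i0 j l hl.symm
      rw [← e3] at e4
      linarith
  · by_cases e2 : a.2 = b.2
    · have h3 : ∀ i k j, i ≠ k → U (i, j) = δ * U (k, j) := fun i k j hik =>
        hall (i, j) (k, j) (iff_of_false e1 hik) (iff_of_true e2 rfl)
      rcases hδ with rfl | rfl
      · by_cases h : i0 = k0
        · exact hne0 (by rw [h])
        · exact hne0 (by rw [h3 i0 k0 j0 h, one_mul])
      · apply hz i0
        intro j
        obtain ⟨k, hk, -⟩ := third i0 i0
        obtain ⟨m, hm1, hm2⟩ := third i0 k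
        have e3 := h3 i0 k j hk.symm
        have e4 := h3 k m j hm2.symm
        have e5 := h3 m i0 j hm1
        linarith
    · have h3 : ∀ i k j l, i ≠ k → j ≠ l → U (i, j) = δ * U (k, l) := fun i k j l hik hjl =>
        hall (i, j) (k, l) (iff_of_false e1 hik) (iff_of_false e2 hjl)
      obtain ⟨m, hm1, hm2⟩ := third i0 k0
      obtain ⟨l, hl⟩ := other j0
      apply hne0
      rw [h3 i0 m j0 l hm1.symm hl.symm, h3 k0 m j0 l hm2.symm hl.symm]

theorem not_rigid_grid (Ω : Type u) [Field Ω] [IsAlgClosed Ω] [CharZero Ω] (p : ℕ)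
    [Fact p.Prime] {g g₁ g₂ : ℕ} (h₁ : 3 ≤ g₁) (h₂ : 2 ≤ g₂) (s : Fin g → ℚ)
    (hs01 : ∀ j, 0 ≤ s j ∧ s j ≤ 1) (e : Fin g₁ × Fin g₂ ≃ Fin g) (ε : Fin g → ℤˣ) (u : ℚ)
    (hu : u ≠ 0) (hsum : ∀ i, ∑ j, ((ε (e (i, j)) : ℤ) : ℚ) * (1 - 2 * s (e (i, j))) = u)
    (hne : ∃ i k j, ((ε (e (i, j)) : ℤ) : ℚ) * (1 - 2 * s (e (i, j))) ≠
      ((ε (e (k, j)) : ℤ) : ℚ) * (1 - 2 * s (e (k, j)))) : ¬ Rigid Ω p s := by
  classical
  obtain ⟨F, _, _, _, T, hT, hsplit, hact, htwo⟩ := exists_grid p g₁ g₂ (by omega) h₂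
  let U : Fin g₁ × Fin g₂ → ℚ := fun x => ((ε (e x) : ℤ) : ℚ) * (1 - 2 * s (e x))
  have hUsum : ∀ i, ∑ j, U (i, j) = u := hsum
  let i₀ : Fin g₁ := ⟨0, by omega⟩
  let i₁ : Fin g₁ := ⟨1, by omega⟩
  let j₀ : Fin g₂ := ⟨0, by omega⟩
  have hi : i₀ ≠ i₁ := by
    intro h
    have := congrArg Fin.val h
    simp [i₀, i₁] at this
  let C : Fin g₁ × Fin g₂ → ℚ := fun x => if x.1 = i₀ then 1 else if x.1 = i₁ then -1 else 0
  let v : (F →+* ℂ) → ℚ := fun x => Sum.elim U (fun i => -U i) (T.symm x)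
  let c : (F →+* ℂ) → ℚ := fun x => Sum.elim C (fun i => -C i) (T.symm x)
  have hvl : ∀ i, v (T (Sum.inl i)) = U i := fun i => by simp only [v, Equiv.symm_apply_apply,
    Sum.elim_inl]
  have hvr : ∀ i, v (T (Sum.inr i)) = -U i := fun i => by simp only [v, Equiv.symm_apply_apply,
    Sum.elim_inr]
  have hcl : ∀ i, c (T (Sum.inl i)) = C i := fun i => by simp only [c, Equiv.symm_apply_apply,
    Sum.elim_inl]
  have hcr : ∀ i, c (T (Sum.inr i)) = -C i := fun i => by simp only [c, Equiv.symm_apply_apply,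
    Sum.elim_inr]
  have hT' : ∀ i, ComplexEmbedding.conjugate (T (Sum.inr i)) = T (Sum.inl i) := by
    intro i
    rw [hT, conj_conj]
  have hvodd : ∀ x, v (ComplexEmbedding.conjugate x) = - v x := by
    intro x
    obtain ⟨y, rfl⟩ := T.surjective x
    rcases y with i | i
    · rw [← hT, hvl, hvr]
    · rw [hT', hvl, hvr, neg_neg]
  have hcodd : ∀ x, c (ComplexEmbedding.conjugate x) = - c x := by
    intro x
    obtain ⟨y, rfl⟩ := T.surjective x
    rcases y with i | i
    · rw [← hT, hcl, hcr]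
    · rw [hT', hcl, hcr, neg_neg]
  have hinr : ∀ σ ∈ PC F, ∀ i, v (σ (T (Sum.inr i))) = - v (σ (T (Sum.inl i))) := by
    intro σ hσ i
    rw [hT, conj_comm σ hσ, hvodd]
  -- the enumeration
  let T' : Fin g ⊕ Fin g ≃ (F →+* ℂ) := (Equiv.sumCongr e.symm e.symm).trans T
  have hT'l : ∀ i, T' (Sum.inl i) = T (Sum.inl (e.symm i)) := fun i => rfl
  have hT'r : ∀ i, T' (Sum.inr i) = T (Sum.inr (e.symm i)) := fun i => rfl
  have hkey : ∀ a b, a ≠ b → ∀ δ : ℚ, (δ = 1 ∨ δ = -1) →
      (∀ σ ∈ PC F, v (σ (T (Sum.inl a))) = δ * v (σ (T (Sum.inl b)))) → False := by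
    intro a b hab δ hδ hall
    refine grid_alg h₁ h₂ U u hu hUsum hne a b hab δ hδ ?_
    intro x y e1 e2
    obtain ⟨σ, hσ, h3, h4⟩ := htwo a b x y e1 e2
    have h5 := hall σ hσ
    rw [h3, h4, hvl, hvl] at h5
    exact h5
  have hself : ∀ a, (∀ σ ∈ PC F, v (σ (T (Sum.inl a))) = - v (σ (T (Sum.inl a)))) → False := by
    intro a hall
    apply hu
    rw [← hUsum i₀]
    refine Finset.sum_eq_zero fun j _ => ?_
    obtain ⟨σ, hσ, h3, -⟩ := htwo a a (i₀, j) (i₀, j) (by simp) (by simp)
    have h5 := hall σ hσ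
    rw [h3, hvl] at h5
    linarith
  refine not_rigid Ω p F hsplit s hs01 T' (fun i => by rw [hT'l, hT'r, hT]) ε v (fun i => by
    rw [hT'l, hvl]
    simp only [U, Equiv.apply_symm_apply]) hvodd ?_ c hcodd ?_ ?_
  · intro x y hxy
    obtain ⟨x, rfl⟩ := T.surjective x
    obtain ⟨y, rfl⟩ := T.surjective y
    congr 1
    rcases x with i | i <;> rcases y with j | j
    · by_contra hne'
      have hij : i ≠ j := fun h => hne' (by rw [h])
      exact hkey i j hij 1 (Or.inl rfl) fun σ hσ => by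
        rw [one_mul]
        exact hxy σ hσ
    · exfalso
      by_cases hij : i = j
      · subst hij
        exact hself i fun σ hσ => by
          rw [← hinr σ hσ]
          exact hxy σ hσ
      · exact hkey i j hij (-1) (Or.inr rfl) fun σ hσ => by
          rw [neg_one_mul, ← hinr σ hσ]
          exact hxy σ hσ
    · exfalso
      by_cases hij : i = j
      · subst hij
        exact hself i fun σ hσ => by
          rw [← hinr σ hσ]
          exact (hxy σ hσ).symm
      · exact hkey i j hij (-1) (Or.inr rfl) fun σ hσ => by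
          rw [neg_one_mul, ← hxy σ hσ, hinr σ hσ, neg_neg]
    · by_contra hne'
      have hij : i ≠ j := fun h => hne' (by rw [h])
      exact hkey i j hij 1 (Or.inl rfl) fun σ hσ => by
        have h3 := hxy σ hσ
        rw [hinr σ hσ, hinr σ hσ] at h3
        rw [one_mul]
        exact neg_injective h3
  · intro σ hσ
    rw [← Equiv.sum_comp T, Fintype.sum_sum_type]
    simp only [hcl, hcr, hinr σ hσ]
    have hrow : ∀ (π₁ : Equiv.Perm (Fin g₁)) (π₂ : Equiv.Perm (Fin g₂)),
        ∑ x : Fin g₁ × Fin g₂, C x * U (π₁ x.1, π₂ x.2) = 0 := by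
      intro π₁ π₂
      rw [Fintype.sum_prod_type]
      have h3 : ∀ i, ∑ j, U (π₁ i, π₂ j) = u := by
        intro i
        rw [Equiv.sum_comp π₂ fun j => U (π₁ i, j), hUsum]
      have h4 : ∀ i : Fin g₁, ∑ j : Fin g₂, C (i, j) * U (π₁ i, π₂ j) =
          (if i = i₀ then 1 else if i = i₁ then -1 else 0) * u := by
        intro i
        rw [← h3 i, Finset.mul_sum]
      rw [Finset.sum_congr rfl fun i _ => h4 i, ← Finset.sum_mul]
      have h5 : ∑ i : Fin g₁, (if i = i₀ then (1 : ℚ) else if i = i₁ then -1 else 0) = 0 := by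
        have h6 : ∀ i : Fin g₁, (if i = i₀ then (1 : ℚ) else if i = i₁ then -1 else 0) =
            (if i = i₀ then 1 else 0) + (if i = i₁ then -1 else 0) := by
          intro i
          by_cases h7 : i = i₀
          · subst h7
            rw [if_pos rfl, if_pos rfl, if_neg hi, add_zero]
          · rw [if_neg h7, if_neg h7, zero_add]
        rw [Finset.sum_congr rfl fun i _ => h6 i, Finset.sum_add_distrib, Finset.sum_ite_eq',
          Finset.sum_ite_eq', if_pos (Finset.mem_univ _), if_pos (Finset.mem_univ _)]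
        norm_num
      rw [h5, zero_mul]
    obtain ⟨π₁, π₂, hπ | hπ⟩ := hact σ hσ
    · simp only [hπ, hvl, neg_mul_neg, hrow π₁ π₂, add_zero]
    · simp only [hπ, hvr, mul_neg, neg_neg, neg_mul, Finset.sum_neg_distrib, hrow π₁ π₂,
        neg_zero, add_zero]
  · intro h0
    have h3 := congrFun h0 (T (Sum.inl (i₀, j₀)))
    rw [hcl] at h3
    simp [C] at h3

end Pool.Agent.H21.NQ
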