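import Pool.Agent.H21.NP.Poly

/-!
# A polynomial with real and `p`-adic roots and a doubly transitive Galois group, II
-/

set_option autoImplicit false
set_option linter.unusedSectionVars false

namespace Pool.Agent.H21.NQ

open Polynomial Finset Pool.Agent.H21.NP

/-- The polynomial. The auxiliary primes have the property `S`. -/
theorem exists_poly_in (p : ℕ) [hp : Fact p.Prime] (g : ℕ) (hg : 2 ≤ g) (S : ℕ → Prop)
    (hS : ∀ N, ∃ q, N < q ∧ q.Prime ∧ S q) :
    ∃ f : ℤ[X], f.Monic ∧ f.natDegree = g ∧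
      (∃ ρ : Fin g → ℝ, Function.Injective ρ ∧ ∀ i, aeval (ρ i) f = 0) ∧
      (∃ z : Fin g → ℤ_[p], Function.Injective z ∧ ∀ i, aeval (z i) f = 0) ∧
      (∃ (q : ℕ) (_ : Fact q.Prime), S q ∧ Irreducible (f.map (Int.castRingHom ℤ_[q]))) ∧
      ∃ (q : ℕ) (_ : Fact q.Prime) (h : ℤ[X]), S q ∧ h.Monic ∧ h.natDegree = g - 1 ∧
        Irreducible (h.map (Int.castRingHom (ZMod q))) ∧
        f.map (Int.castRingHom (ZMod q)) = X * h.map (Int.castRingHom (ZMod q)) := by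
  -- the power of `p`
  obtain ⟨k, hk⟩ : ∃ k : ℕ, ∀ i ∈ range g, ‖(p : ℤ_[p])‖ ^ k <
      ‖∏ j ∈ (range g).erase i, ((i : ℤ_[p]) - j)‖ ^ 2 := by
    have h1 : ∀ i ∈ range g, ∀ᶠ k : ℕ in Filter.atTop, ‖(p : ℤ_[p])‖ ^ k <
        ‖∏ j ∈ (range g).erase i, ((i : ℤ_[p]) - j)‖ ^ 2 := by
      intro i _
      have hlt : ‖(p : ℤ_[p])‖ < 1 := by
        rw [PadicInt.norm_p]
        exact inv_lt_one_of_one_lt₀ (by exact_mod_cast hp.out.one_lt)
      refine (tendsto_pow_atTop_nhds_zero_of_lt_one (norm_nonneg _) hlt).eventually_lt_const ?_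
      apply pow_pos
      rw [norm_pos_iff, prod_ne_zero_iff]
      intro j hj
      have hij : j ≠ i := ne_of_mem_erase hj
      rw [sub_ne_zero]
      exact_mod_cast hij.symm
    exact ((Filter.eventually_all_finset _).2 h1).exists
  obtain ⟨q1, hq1, hq1p, hq1S⟩ := hS p
  obtain ⟨q2, hq2, hq2p, hq2S⟩ := hS q1
  have hq1F : Fact q1.Prime := ⟨hq1p⟩
  have hq2F : Fact q2.Prime := ⟨hq2p⟩
  obtain ⟨H, hHm, hHd, hHi⟩ := exists_irred_zmod q2 (g - 1) (by omega)
  have cpr : ∀ a b : ℕ, a.Prime → b.Prime → a < b → a.Coprime b := fun a b ha hb h =>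
    (Nat.coprime_primes ha hb).2 h.ne
  have c12 := cpr q1 q2 hq1p hq2p (by omega)
  have cp1 := cpr p q1 hp.out hq1p (by omega)
  have cp2 := cpr p q2 hp.out hq2p (by omega)
  have n1 : Nat.Coprime (q1 ^ 2) (q2 * p ^ k) :=
    Nat.Coprime.pow_left 2 (Nat.Coprime.mul_right c12 (cp1.symm.pow_right k))
  have n2 : Nat.Coprime q2 (q1 ^ 2 * p ^ k) :=
    Nat.Coprime.mul_right (c12.symm.pow_right 2) (cp2.symm.pow_right k)
  have n3 : Nat.Coprime (p ^ k) (q1 ^ 2 * q2) :=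
    Nat.Coprime.pow_left k (Nat.Coprime.mul_right (cp1.pow_right 2) cp2)
  obtain ⟨A1, B1, C1, hA1, hA1'⟩ := exists_crt _ _ n1
  obtain ⟨A2, B2, C2, hA2, hA2'⟩ := exists_crt _ _ n2
  obtain ⟨A3, B3, C3, hA3, hA3'⟩ := exists_crt _ _ n3
  push_cast at hA1 hA1' hA2 hA2' hA3 hA3'
  let P0 : ℤ[X] := ∏ i ∈ range g, (X - C (i : ℤ))
  have hP0m : P0.Monic := monic_prod_of_monic _ _ fun i _ => monic_X_sub_C _
  have hP0d : P0.natDegree = g := by
    simp only [P0]
    rw [natDegree_prod_of_monic _ _ fun i _ => monic_X_sub_C _,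
      sum_congr rfl fun i _ => natDegree_X_sub_C _, sum_const, card_range, smul_eq_mul, mul_one]
  have hXHm : (X * H).Monic := monic_X.mul hHm
  have hXHd : (X * H).natDegree = g := by
    rw [monic_X.natDegree_mul hHm, natDegree_X, hHd]
    omega
  have hsub : ∀ P : ℤ[X], P.Monic → P.natDegree = g → (P - X ^ g).natDegree < g := by
    intro P hPm hPd
    have h1 : (P - X ^ g).degree < P.degree := by
      refine degree_sub_lt_left ?_ hPm.ne_zero ?_
      · rw [degree_X_pow, degree_eq_natDegree hPm.ne_zero, hPd]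
      · rw [hPm.leadingCoeff, (monic_X_pow g).leadingCoeff]
    by_cases h0 : P - X ^ g = 0
    · rw [h0, natDegree_zero]
      omega
    · have h2 := natDegree_lt_natDegree h0 h1
      rwa [hPd] at h2
  let r : ℤ[X] := C (A1 * q1) + C A2 * (X * H - X ^ g) + C A3 * (P0 - X ^ g)
  have hr : r.natDegree < g := by
    have e1 : (C (A1 * q1) : ℤ[X]).natDegree < g := by
      rw [natDegree_C]
      omega
    have e2 : (C A2 * (X * H - X ^ g)).natDegree < g :=
      (natDegree_C_mul_le _ _).trans_lt (hsub _ hXHm hXHd)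
    have e3 : (C A3 * (P0 - X ^ g)).natDegree < g :=
      (natDegree_C_mul_le _ _).trans_lt (hsub _ hP0m hP0d)
    exact (natDegree_add_le _ _).trans_lt (max_lt ((natDegree_add_le _ _).trans_lt (max_lt e1 e2)) e3)
  let N : ℕ := q1 ^ 2 * q2 * p ^ k
  have hN : 0 < N := by
    have := hq1p.pos
    have := hq2p.pos
    have := hp.out.pos
    positivity
  let t : ℕ := 2 ^ g * ∑ k ∈ range g, (r.coeff k).natAbs * g ^ k + 1
  let T : ℕ := N * t
  have hT : 2 ^ g * ∑ k ∈ range g, (r.coeff k).natAbs * g ^ k < T := by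
    have h1 : t ≤ T := Nat.le_mul_of_pos_left _ hN
    omega
  let f : ℤ[X] := ∏ i ∈ range g, (X - C ((T : ℤ) * i)) + r
  obtain ⟨u0, hu0⟩ := prod_mod (N : ℤ) (fun i => (t : ℤ) * i) g
  have hf0 : f = X ^ g + C (N : ℤ) * u0 + r := by
    simp only [f]
    rw [← hu0]
    congr 1
    refine prod_congr rfl fun i _ => ?_
    simp only [T]
    push_cast
    ring_nf
  have hNZ : (N : ℤ) = (q1 : ℤ) ^ 2 * q2 * p ^ k := by
    simp only [N]
    push_cast
    ring
  have hfm : f.Monic := by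
    have h1 : (∏ i ∈ range g, (X - C ((T : ℤ) * i)) : ℤ[X]).Monic :=
      monic_prod_of_monic _ _ fun i _ => monic_X_sub_C _
    refine h1.add_of_left ?_
    have h2 : (∏ i ∈ range g, (X - C ((T : ℤ) * i)) : ℤ[X]).natDegree = g := by
      rw [natDegree_prod_of_monic _ _ fun i _ => monic_X_sub_C _,
        sum_congr rfl fun i _ => natDegree_X_sub_C _, sum_const, card_range, smul_eq_mul, mul_one]
    rw [degree_eq_natDegree h1.ne_zero, h2]
    exact (degree_le_natDegree).trans_lt (by exact_mod_cast hr)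
  have hfd : f.natDegree = g := by
    have h1 : (∏ i ∈ range g, (X - C ((T : ℤ) * i)) : ℤ[X]).natDegree = g := by
      rw [natDegree_prod_of_monic _ _ fun i _ => monic_X_sub_C _,
        sum_congr rfl fun i _ => natDegree_X_sub_C _, sum_const, card_range, smul_eq_mul, mul_one]
    simp only [f]
    rw [natDegree_add_eq_left_of_natDegree_lt (by rw [h1]; exact hr), h1]
  -- the first congruence
  have e1 : ∃ v : ℤ[X], f = X ^ g + C (q1 : ℤ) + C ((q1 : ℤ) ^ 2) * v := by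
    refine ⟨C ((q2 : ℤ) * p ^ k) * u0 + C (B1 * q1) + C ((p : ℤ) ^ k * C2) * (X * H - X ^ g) +
      C ((q2 : ℤ) * C3) * (P0 - X ^ g), ?_⟩
    rw [hf0, hNZ]
    simp only [r]
    have g1 : A1 * q1 = q1 + (q1 : ℤ) ^ 2 * (B1 * q1) := by rw [hA1]; ring
    have g2 : A2 = (q1 : ℤ) ^ 2 * (p ^ k * C2) := by rw [hA2']; ring
    have g3 : A3 = (q1 : ℤ) ^ 2 * (q2 * C3) := by rw [hA3']; ring
    rw [g1, g2, g3]
    simp only [C_add, C_mul]
    ring
  have e2 : ∃ v : ℤ[X], f = X * H + C (q2 : ℤ) * v := by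
    refine ⟨C ((q1 : ℤ) ^ 2 * p ^ k) * u0 + C ((p : ℤ) ^ k * C1 * q1) + C B2 * (X * H - X ^ g) +
      C ((q1 : ℤ) ^ 2 * C3) * (P0 - X ^ g), ?_⟩
    rw [hf0, hNZ]
    simp only [r]
    have g1 : A1 * q1 = (q2 : ℤ) * (p ^ k * C1 * q1) := by rw [hA1']; ring
    have g2 : A2 = 1 + (q2 : ℤ) * B2 := by rw [hA2]
    have g3 : A3 = (q2 : ℤ) * (q1 ^ 2 * C3) := by rw [hA3']; ring
    rw [g1, g2, g3]
    simp only [C_add, C_mul, C_1]
    ring
  have e3 : ∃ v : ℤ[X], f = P0 + C ((p : ℤ) ^ k) * v := by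
    refine ⟨C ((q1 : ℤ) ^ 2 * q2) * u0 + C ((q2 : ℤ) * C1 * q1) + C ((q1 : ℤ) ^ 2 * C2) *
      (X * H - X ^ g) + C B3 * (P0 - X ^ g), ?_⟩
    rw [hf0, hNZ]
    simp only [r]
    have g1 : A1 * q1 = (p : ℤ) ^ k * (q2 * C1 * q1) := by rw [hA1']; ring
    have g2 : A2 = (p : ℤ) ^ k * (q1 ^ 2 * C2) := by rw [hA2']; ring
    have g3 : A3 = 1 + (p : ℤ) ^ k * B3 := by rw [hA3]
    rw [g1, g2, g3]
    simp only [C_add, C_mul, C_1]
    ring
  obtain ⟨v1, hv1⟩ := e1
  obtain ⟨v2, hv2⟩ := e2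
  obtain ⟨v3, hv3⟩ := e3
  refine ⟨f, hfm, hfd, real_roots g r hr T hT,
    padic_roots p g k f v3 hv3 (fun i hi => hk i (mem_range.2 hi)), ⟨q1, hq1F, hq1S, ?_⟩,
    q2, hq2F, H, hq2S, hHm, hHd, hHi, ?_⟩
  · -- Eisenstein
    have hq1Z : Prime (q1 : ℤ_[q1]) := PadicInt.prime_p
    have hP : (Ideal.span {(q1 : ℤ_[q1])}).IsPrime :=
      (Ideal.span_singleton_prime hq1Z.ne_zero).2 hq1Z
    let f' : ℤ_[q1][X] := f.map (Int.castRingHom ℤ_[q1])
    have hfm' : f'.Monic := hfm.map _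
    have hdeg : f'.degree = g := by
      rw [degree_eq_natDegree hfm'.ne_zero, hfm.natDegree_map, hfd]
    have hv1' : f' = X ^ g + C (q1 : ℤ_[q1]) + C ((q1 : ℤ_[q1]) ^ 2) *
        v1.map (Int.castRingHom ℤ_[q1]) := by
      simp only [f']
      rw [hv1]
      simp
    change Irreducible f'
    apply irreducible_of_eisenstein_criterion hP
    · rw [hfm'.leadingCoeff, Ideal.mem_span_singleton]
      exact hq1Z.not_dvd_one
    · intro n hn
      rw [hdeg] at hn
      have hn' : n < g := by exact_mod_cast hn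
      rw [Ideal.mem_span_singleton, hv1']
      simp only [coeff_add, coeff_X_pow, coeff_C, coeff_C_mul, if_neg hn'.ne, zero_add]
      refine dvd_add ?_ (Dvd.dvd.mul_right (dvd_pow_self _ two_ne_zero) _)
      split_ifs
      · exact dvd_rfl
      · exact dvd_zero _
    · rw [hdeg]
      exact_mod_cast (by omega : 0 < g)
    · rw [Ideal.span_singleton_pow, Ideal.mem_span_singleton, hv1']
      simp only [coeff_add, coeff_X_pow, coeff_C, coeff_C_mul, if_true,
        if_neg (by omega : (0 : ℕ) ≠ g), zero_add]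
      intro h
      have h1 : (q1 : ℤ_[q1]) ^ 2 ∣ q1 := (dvd_add_left (Dvd.intro _ rfl)).1 h
      obtain ⟨y, hy⟩ := h1
      have h2 : (q1 : ℤ_[q1]) * 1 = q1 * (q1 * y) := by
        rw [mul_one]
        conv_lhs => rw [hy]
        ring
      have h3 := mul_left_cancel₀ hq1Z.ne_zero h2
      exact hq1Z.not_dvd_one ⟨y, h3⟩
    · exact hfm'.isPrimitive
  · rw [hv2]
    simp

end Pool.Agent.H21.NQ
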