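import Pool.Agent.H21.NQ.Dbl2
import Pool.Agent.H21.NP.Tot
import Pool.Agent.H21.NQ.Poly2
import Pool.Graph.R_pool_sql_team_seeded_c8625f6e.K4H21.CT.SplitPrime

/-!
# Primes that split completely, and two polynomials with independent Galois groups
-/

set_option autoImplicit false
set_option linter.unusedSectionVars false

namespace Pool.Agent.H21.NQ

open Polynomial Module Pool.Agent.N90.FD Pool.Agent.H21.NP

theorem exists_rat (Y : Set QQ) (hY : Y.Finite) (N : ℕ) :
    ∃ q, N < q ∧ q.Prime ∧ ∃ _ : Fact q.Prime, Rat' q Y := by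
  let L : IntermediateField ℚ QQ := IntermediateField.adjoin ℚ Y
  have hfd : FiniteDimensional ℚ L := by
    have : Finite Y := hY.to_subtype
    exact IntermediateField.finiteDimensional_adjoin fun x _ => Algebra.IsIntegral.isIntegral x
  have hNF : NumberField L := NumberField.mk
  obtain ⟨q, hq, hN, hs⟩ := Pool.Agent.K4H21.CT.exists_split_prime L N
  refine ⟨q, hN, hq.out, hq, ?_⟩
  intro e y hy
  have hinj : Function.Injective
      (fun φ : L →+* ℚ_[q] => (algebraMap ℚ_[q] (PadicAlgCl q)).comp φ) := by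
    intro φ φ' h
    exact RingHom.ext fun x => (algebraMap ℚ_[q] (PadicAlgCl q)).injective (RingHom.congr_fun h x)
  have hs' : Nat.card (L →+* ℚ_[q]) = finrank ℚ L := hs
  have hc : Nat.card (L →+* PadicAlgCl q) = finrank ℚ L := by
    rw [Nat.card_eq_fintype_card, NumberField.Embeddings.card]
  have hfin : Finite (L →+* PadicAlgCl q) := inferInstance
  have hbij := (Nat.bijective_iff_injective_and_card _).2 ⟨hinj, by rw [hs', hc]⟩
  obtain ⟨φ, hφ⟩ := hbij.2 ((e : QQ →+* PadicAlgCl q).comp (L.val : L →+* QQ))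
  have h1 := RingHom.congr_fun hφ ⟨y, IntermediateField.subset_adjoin ℚ Y hy⟩
  exact ⟨φ ⟨y, IntermediateField.subset_adjoin ℚ Y hy⟩, h1.symm⟩

/-- A polynomial over the rational numbers whose roots are real and `p`-adic; the stabilizer of a
finite set `Y` acts doubly transitively on the roots. -/
theorem exists_roots (p : ℕ) [Fact p.Prime] (g : ℕ) (hg : 2 ≤ g) (Y : Set QQ) (hY : Y.Finite) :
    ∃ (α : Fin g → QQ), Function.Injective α ∧
      (∀ i, starRingEnd ℂ (j0 (α i)) = j0 (α i)) ∧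
      (∀ σ : QQ ≃ₐ[ℚ] QQ, ∃ π : Equiv.Perm (Fin g), ∀ i, σ (α i) = α (π i)) ∧
      (∀ (e0 : QQ →ₐ[ℚ] PadicAlgCl p) (i : Fin g), ∃ y : ℚ_[p], e0 (α i) =
        algebraMap ℚ_[p] (PadicAlgCl p) y) ∧
      (∀ i k, ∃ σ : QQ ≃ₐ[ℚ] QQ, σ (α i) = α k ∧ ∀ y ∈ Y, σ y = y) ∧
      ∀ i j k l, i ≠ j → k ≠ l → ∃ σ : QQ ≃ₐ[ℚ] QQ, σ (α i) = α k ∧ σ (α j) = α l ∧
        ∀ y ∈ Y, σ y = y := by
  classical
  obtain ⟨f, hfm, hfd, ⟨ρ, hρi, hρ⟩, ⟨z, hzi, hz⟩, ⟨q₁, hq₁, hS₁, hirr⟩, q₂, hq₂, h, hS₂, hhm, hhd,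
    hhi, hfh⟩ := exists_poly_in p g hg (fun q => ∃ _ : Fact q.Prime, Rat' q Y)
      (fun N => exists_rat Y hY N)
  obtain ⟨_, hY₁⟩ := hS₁
  obtain ⟨_, hY₂⟩ := hS₂
  -- the roots
  have hρC : ∀ i, Polynomial.aeval ((ρ i : ℝ) : ℂ) f = 0 := by
    intro i
    have h1 := Polynomial.aeval_algHom_apply (Complex.ofRealHom.toIntAlgHom) (ρ i) f
    rw [hρ, map_zero] at h1
    exact h1
  choose α hα hαr using fun i => exists_root_lift j0 f hfm ((ρ i : ℝ) : ℂ) (hρC i)
  have hαi : Function.Injective α := by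
    intro i j hij
    apply hρi
    have h1 := congrArg j0 hij
    rw [hα, hα] at h1
    exact_mod_cast h1
  have hall : ∀ y : QQ, Polynomial.aeval y f = 0 → ∃ i, y = α i :=
    mem_of_root f hfm hfd α hαi hαr
  refine ⟨α, hαi, ?_, ?_, ?_, ?_, ?_⟩
  · intro i
    rw [hα, Complex.conj_ofReal]
  · intro σ
    choose π hπ using fun i => hall _ (root_map f σ (α i) (hαr i))
    have hπi : Function.Injective π := by
      intro i k hik
      apply hαi
      apply σ.injective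
      rw [hπ, hπ, hik]
    exact ⟨Equiv.ofBijective π (Finite.injective_iff_bijective.1 hπi), hπ⟩
  · intro e0 i
    let ι : ℤ_[p] →+* PadicAlgCl p :=
      (algebraMap ℚ_[p] (PadicAlgCl p)).comp (algebraMap ℤ_[p] ℚ_[p])
    have hιi : Function.Injective ι :=
      (algebraMap ℚ_[p] (PadicAlgCl p)).injective.comp Subtype.coe_injective
    have h1 : ∀ i, Polynomial.aeval (ι (z i)) f = 0 := by
      intro i
      have h2 := Polynomial.aeval_algHom_apply (ι.toIntAlgHom) (z i) f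
      rw [hz, map_zero] at h2
      exact h2
    have h2 : Polynomial.aeval (e0 (α i)) f = 0 := by
      have h5 := congrArg e0 (hαr i)
      rw [map_zero] at h5
      rw [← h5]
      exact (Polynomial.aeval_algHom_apply (e0.restrictScalars ℤ) (α i) f)
    obtain ⟨k, hk⟩ := mem_of_root f hfm hfd (fun i => ι (z i)) (hιi.comp hzi) h1 _ h2
    exact ⟨algebraMap ℤ_[p] ℚ_[p] (z k), hk⟩
  · intro i k
    exact tr_fix Y f hfm q₁ hY₁ hirr _ _ (hαr i) (hαr k)
  · intro i j k l hij hkl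
    exact dbl_fix Y f hfm (by omega) q₁ hY₁ hirr q₂ hY₂ h (by omega) hhm hhi hfh _ _ _ _ (hαr i)
      (hαr j) (hαr k) (hαr l) (fun h3 => hij (hαi h3)) (fun h3 => hkl (hαi h3))

end Pool.Agent.H21.NQ
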