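import Pool.Agent.H21.NQ.Syl
import Pool.Agent.H21.NQ.Dir2

/-!
# A number of pairs that is a power of a prime: signed sums modulo the prime
-/

set_option autoImplicit false
set_option linter.unusedSectionVars false

namespace Pool.Agent.H21.NQ

open MulAction Module Pool.Agent.H21.NP Pool.Agent.H21.TC

section

variable {X : Type} [Fintype X] {P : Subgroup (Equiv.Perm X)} {bar : X → X}

theorem map_isTr (hcomm : ∀ σ ∈ P, ∀ x, σ (bar x) = bar (σ x)) {τ : Equiv.Perm X} (hτ : τ ∈ P)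
    {O : Finset X} (hO : IsTr bar O) : IsTr bar (O.map τ.toEmbedding) := by
  have hmem : ∀ x, x ∈ O.map τ.toEmbedding ↔ τ⁻¹ x ∈ O := by
    intro x
    rw [Finset.mem_map_equiv]
    rfl
  intro x
  rw [hmem, hmem, hO, hcomm _ (inv_mem hτ)]

/-- The odd functions modulo `ℓ` with the relations. -/
def ModRel (ℓ : ℕ) [Fact ℓ.Prime] (P : Subgroup (Equiv.Perm X)) (bar : X → X) (W : X → ZMod ℓ) :
    Submodule (ZMod ℓ) (X → ZMod ℓ) where
  carrier := {f | (∀ x, f (bar x) = - f x) ∧ ∀ σ ∈ P, ∀ O : Finset X, IsTr bar O →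
    ∑ x ∈ O, f x * W (σ x) = 0}
  zero_mem' := ⟨fun x => by simp, fun σ _ O _ => by simp⟩
  add_mem' := fun {f g} hf hg => ⟨fun x => by
      simp only [Pi.add_apply, hf.1 x, hg.1 x]
      ring, fun σ hσ O hO => by
      simp only [Pi.add_apply, add_mul, Finset.sum_add_distrib, hf.2 σ hσ O hO, hg.2 σ hσ O hO,
        add_zero]⟩
  smul_mem' := fun a f hf => ⟨fun x => by
      simp only [Pi.smul_apply, smul_eq_mul, hf.1 x]
      ring, fun σ hσ O hO => by
      simp only [Pi.smul_apply, smul_eq_mul, mul_assoc]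
      rw [← Finset.mul_sum, hf.2 σ hσ O hO, mul_zero]⟩

theorem modRel_comp {ℓ : ℕ} [Fact ℓ.Prime] {W : X → ZMod ℓ}
    (hcomm : ∀ σ ∈ P, ∀ x, σ (bar x) = bar (σ x)) {τ : Equiv.Perm X} (hτ : τ ∈ P)
    {f : X → ZMod ℓ} (hf : f ∈ ModRel ℓ P bar W) : (fun x => f (τ x)) ∈ ModRel ℓ P bar W := by
  refine ⟨fun x => ?_, fun σ hσ O hO => ?_⟩
  · change f (τ (bar x)) = - f (τ x)
    rw [hcomm τ hτ, hf.1]
  · have h1 := hf.2 (σ * τ⁻¹) (mul_mem hσ (inv_mem hτ)) _ (map_isTr hcomm hτ hO)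
    rw [Finset.sum_map] at h1
    rw [← h1]
    refine Finset.sum_congr rfl fun x _ => ?_
    have h2 : (σ * τ⁻¹) (τ x) = σ x := by
      rw [← Equiv.Perm.mul_apply, inv_mul_cancel_right]
    change f (τ x) * W (σ x) = f (τ x) * W ((σ * τ⁻¹) (τ x))
    rw [h2]

theorem mod_contra (hbar : ∀ x, bar (bar x) = x) (hb : ∀ x, bar x ≠ x)
    (hcomm : ∀ σ ∈ P, ∀ x, σ (bar x) = bar (σ x)) (htr : ∀ x y : X, ∃ σ ∈ P, σ x = y)
    {ℓ : ℕ} [hℓ : Fact ℓ.Prime] {k : ℕ} (hcard : Fintype.card X = 2 * ℓ ^ k) (w : X → ℤ)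
    (hw : ∀ x, w (bar x) = - w x)
    (hO : ∀ O : Finset X, IsTr bar O → ¬ (ℓ : ℤ) ∣ ∑ x ∈ O, w x) (c : X → ℤ)
    (hc : ∀ x, c (bar x) = - c x) (hrel : ∀ σ ∈ P, ∑ x, c x * w (σ x) = 0) : c = 0 := by
  classical
  by_contra hc0
  have hℓ0 : 0 < ℓ := hℓ.out.pos
  obtain ⟨y⟩ : Nonempty X := Fintype.card_pos_iff.1 (by rw [hcard]; positivity)
  obtain ⟨c', hc'1, hc'2⟩ := Finset.extract_gcd c (s := Finset.univ) ⟨y, Finset.mem_univ y⟩
  set d := Finset.univ.gcd c with hd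
  have hd0 : d ≠ 0 := by
    intro h
    apply hc0
    funext x
    rw [hc'1 x (Finset.mem_univ x), h, zero_mul]
    rfl
  have hc'odd : ∀ x, c' (bar x) = - c' x := by
    intro x
    apply mul_left_cancel₀ hd0
    rw [← hc'1 _ (Finset.mem_univ _), hc, hc'1 x (Finset.mem_univ x)]
    ring
  have hc'rel : ∀ σ ∈ P, ∑ x, c' x * w (σ x) = 0 := by
    intro σ hσ
    apply mul_left_cancel₀ hd0
    rw [mul_zero, Finset.mul_sum, ← hrel σ hσ]
    refine Finset.sum_congr rfl fun x _ => ?_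
    rw [hc'1 x (Finset.mem_univ x)]
    ring
  have hc'O : ∀ σ ∈ P, ∀ O : Finset X, IsTr bar O → ∑ x ∈ O, c' x * w (σ x) = 0 := by
    intro σ hσ O hO
    have h1 := sum_tr hbar hO (fun x => (c' x : ℚ) * w (σ x)) (fun x => by
      rw [hc'odd, hcomm σ hσ, hw]
      push_cast
      ring)
    have h2 : ∑ x, (c' x : ℚ) * w (σ x) = 0 := by exact_mod_cast hc'rel σ hσ
    rw [h2] at h1
    have h3 : ∑ x ∈ O, (c' x : ℚ) * w (σ x) = 0 := by linarith
    exact_mod_cast h3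
  let W : X → ZMod ℓ := fun x => (w x : ZMod ℓ)
  let N := ModRel ℓ P bar W
  have hcN : (fun x => (c' x : ZMod ℓ)) ∈ N := by
    refine ⟨fun x => ?_, fun σ hσ O hO => ?_⟩
    · change ((c' (bar x) : ℤ) : ZMod ℓ) = - ((c' x : ℤ) : ZMod ℓ)
      rw [hc'odd]
      push_cast
      rfl
    · have h1 := hc'O σ hσ O hO
      have h2 := congrArg (fun z : ℤ => (z : ZMod ℓ)) h1
      simp only [Int.cast_sum, Int.cast_mul, Int.cast_zero] at h2
      exact h2
  have hcN0 : (fun x => (c' x : ZMod ℓ)) ≠ 0 := by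
    intro h0
    have h1 : ∀ x ∈ (Finset.univ : Finset X), (ℓ : ℤ) ∣ c' x := by
      intro x _
      rw [← ZMod.intCast_zmod_eq_zero_iff_dvd]
      exact congrFun h0 x
    have h2 := Finset.dvd_gcd h1
    rw [hc'2] at h2
    have h3 : (ℓ : ℤ) = 1 := by
      have h4 := Int.isUnit_iff.1 (isUnit_of_dvd_one h2)
      rcases h4 with h4 | h4
      · exact h4
      · omega
    have h4 : ℓ = 1 := by exact_mod_cast h3
    exact hℓ.out.one_lt.ne' h4
  obtain ⟨S, O, hSP, hS, hOT, hOtr⟩ := exists_tr_sylow P hbar hb hcomm htr hcard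
  -- the action of the Sylow subgroup
  let act : MulAction S N :=
    { smul := fun s f => ⟨fun x => f.1 (((s⁻¹ : S) : Equiv.Perm X) x),
        modRel_comp hcomm (hSP (s⁻¹ : S).2) f.2⟩
      one_smul := fun f => Subtype.ext (by
        funext x
        rfl)
      mul_smul := fun s t f => Subtype.ext (by
        funext x
        rfl) }
  have hsmul : ∀ (s : S) (f : N) (x : X), (s • f).1 x = f.1 (((s⁻¹ : S) : Equiv.Perm X) x) :=
    fun s f x => rfl
  have hNfin : Finite N := inferInstance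
  have hNt : Nontrivial N := by
    refine ⟨⟨_, hcN⟩, 0, ?_⟩
    intro h
    exact hcN0 (congrArg Subtype.val h)
  have hcardN : ℓ ∣ Nat.card N := by
    have h1 : Nat.card N = Nat.card (ZMod ℓ) ^ finrank (ZMod ℓ) N := Module.natCard_eq_pow_finrank
    rw [h1, Nat.card_zmod]
    exact dvd_pow_self _ (finrank_pos).ne'
  have hfix : ℓ ∣ Nat.card (fixedPoints S N) :=
    (Nat.modEq_zero_iff_dvd.1 ((hS.card_modEq_card_fixedPoints N).symm.trans
      (Nat.modEq_zero_iff_dvd.2 hcardN)))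
  have h0fix : (0 : N) ∈ fixedPoints S N := by
    intro s
    apply Subtype.ext
    funext x
    rfl
  have hpos : 0 < Nat.card (fixedPoints S N) := by
    have : Nonempty (fixedPoints S N) := ⟨⟨0, h0fix⟩⟩
    exact Nat.card_pos
  have h1lt : 1 < Nat.card (fixedPoints S N) :=
    hℓ.out.one_lt.trans_le (Nat.le_of_dvd hpos hfix)
  obtain ⟨⟨⟨f, hfN⟩, hfS⟩, hf0⟩ : ∃ f : fixedPoints S N, f ≠ ⟨0, h0fix⟩ := by
    have : Nontrivial (fixedPoints S N) := Finite.one_lt_card_iff_nontrivial.1 h1lt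
    exact exists_ne _
  have hf0' : f ≠ 0 := by
    intro h
    apply hf0
    exact Subtype.ext (Subtype.ext h)
  have hfinv : ∀ s ∈ S, ∀ x, f (s x) = f x := by
    intro s hs x
    have h1 := hfS (⟨s, hs⟩⁻¹ : S)
    have h2 := congrArg (fun F : N => F.1 x) h1
    simp only [hsmul, inv_inv] at h2
    exact h2
  -- a point with a nonzero value
  obtain ⟨x₀, hx₀, hx₀f⟩ : ∃ x ∈ O, f x ≠ 0 := by
    by_contra hno
    push Not at hno
    apply hf0'
    funext x
    by_cases hx : x ∈ O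
    · exact hno x hx
    · have h1 : bar x ∈ O := by
        rw [hOT, hbar]
        exact hx
      have h2 := hno _ h1
      rw [hfN.1] at h2
      exact neg_eq_zero.1 h2
  have h1 := hfN.2 1 (one_mem _) O hOT
  have h2 : ∑ x ∈ O, f x * W ((1 : Equiv.Perm X) x) = f x₀ * ∑ x ∈ O, W x := by
    rw [Finset.mul_sum]
    refine Finset.sum_congr rfl fun x hx => ?_
    obtain ⟨s, hs, hsx⟩ := hOtr x₀ hx₀ x hx
    rw [← hsx, hfinv s hs x₀]
    rfl
  rw [h2] at h1
  have h3 := (mul_eq_zero.1 h1).resolve_left hx₀f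
  apply hO O hOT
  rw [← ZMod.intCast_zmod_eq_zero_iff_dvd]
  push_cast
  exact h3

end

end Pool.Agent.H21.NQ
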