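import Pool.Agent.H21.NQ.Reg2
import Pool.Agent.H21.NQ.Char
import Pool.Agent.H21.NP.Low

/-!
# A number of pairs that is the square of an odd prime
-/

set_option autoImplicit false
set_option linter.unusedSectionVars false

universe v

namespace Pool.Agent.H21.NQ

open Module Pool.Agent.H21.TC Pool.Agent.H21.NP

variable {X : Type v} [Fintype X]
variable {P : Subgroup (Equiv.Perm X)} {bar : X → X} {w : X → ℚ}

/-- The relations in the case of `ℓ ^ 2` pairs. -/
theorem sq_cases (hbar : ∀ x, bar (bar x) = x) (hb : ∀ x, bar x ≠ x)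
    (hcomm : ∀ σ ∈ P, ∀ x, σ (bar x) = bar (σ x)) (htr : ∀ x y : X, ∃ σ ∈ P, σ x = y)
    (hw : ∀ x, w (bar x) = - w x) {ℓ : ℕ} [hℓ : Fact ℓ.Prime] (hℓ2 : ℓ ≠ 2)
    (hcard : Fintype.card X = 2 * ℓ ^ 2)
    (hnc : ∀ x y, (∀ σ ∈ P, w (σ x) = w (σ y)) → x = y) {c : X → ℚ} (hc : c ∈ RelS P bar w)
    (hc0 : c ≠ 0) : ∃ (O : Finset X) (_ : IsTr bar O), (∑ x ∈ O, w x = 0) ∨
      ∃ (E : Fin ℓ × Fin ℓ ≃ O) (u : ℚ), ∀ i, ∑ j, w (E (i, j)) = u := by
  classical
  obtain ⟨B, _, _, f, hB, hf, hact⟩ := exists_regular P htr hℓ2 hcard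
  have hℓ0 : 0 < ℓ := hℓ.out.pos
  have hodd : Odd (ℓ ^ 2) := (hℓ.out.odd_of_ne_two hℓ2).pow
  -- the orbit is a set of representatives
  have hfbar : ∀ a b, bar (f a) ≠ f b := by
    intro a b hab
    obtain ⟨σ, hσ, h1⟩ := hact (b - a)
    have h2 : σ (f a) = bar (f a) := by rw [h1, sub_add_cancel, hab]
    have h3 : σ (f b) = f a := by rw [← hab, hcomm σ hσ, h2, hbar]
    have h4 : b - a + b = a := hf ((h1 b).symm.trans h3)
    have h5 : (2 : ℕ) • (b - a) = 0 := by
      rw [two_nsmul]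
      have h6 : b - a + b - a = 0 := by rw [h4, sub_self]
      rw [← h6]
      abel
    have h6 : (ℓ ^ 2) • (b - a) = 0 := by rw [← hB]; exact card_nsmul_eq_zero
    obtain ⟨m, hm⟩ := hodd
    have h7 : b - a = 0 := by
      rw [hm, add_nsmul, mul_nsmul, h5, nsmul_zero, one_nsmul, zero_add] at h6
      exact h6
    have h8 : b = a := sub_eq_zero.1 h7
    rw [h8] at hab
    exact hb _ hab
  let O : Finset X := Finset.univ.image f
  have hOc : O.card = ℓ ^ 2 := by
    rw [Finset.card_image_of_injective _ hf, Finset.card_univ, hB]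
  have hO : IsTr bar O := by
    have h1 : ∀ x ∈ O, bar x ∉ O := by
      intro x hx hx'
      obtain ⟨i, -, rfl⟩ := Finset.mem_image.1 hx
      obtain ⟨j, -, hj⟩ := Finset.mem_image.1 hx'
      exact hfbar i j hj.symm
    have hbinj : Function.Injective bar := fun a b h => by rw [← hbar a, h, hbar]
    have h2 : Disjoint O (O.image bar) := by
      rw [Finset.disjoint_left]
      intro x hx hx'
      obtain ⟨z, hz, rfl⟩ := Finset.mem_image.1 hx'
      exact h1 z hz hx
    have h3 : O ∪ O.image bar = Finset.univ := by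
      rw [← Finset.card_eq_iff_eq_univ, Finset.card_union_of_disjoint h2,
        Finset.card_image_of_injective _ hbinj, hOc, hcard]
      ring
    intro x
    refine ⟨h1 x, fun hx => ?_⟩
    have h4 : x ∈ O ∪ O.image bar := by rw [h3]; exact Finset.mem_univ _
    rcases Finset.mem_union.1 h4 with h5 | h5
    · exact h5
    · obtain ⟨z, hz, rfl⟩ := Finset.mem_image.1 h5
      rw [hbar] at hx
      exact absurd hz hx
  have hsumO : ∀ F : X → ℚ, ∑ x ∈ O, F x = ∑ i, F (f i) := fun F =>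
    Finset.sum_image fun a _ b _ h => hf h
  -- the correlations
  have hcorr : ∀ σ ∈ P, ∀ a : B, ∑ b, c (f b) * w (σ (f (a + b))) = 0 := by
    intro σ hσ a
    obtain ⟨τ, hτ, hτa⟩ := hact a
    have h1 := hc.2 (σ * τ) (mul_mem hσ hτ)
    rw [sum_tr hbar hO (fun x => c x * w ((σ * τ) x)) (fun x => by
      rw [hc.1, Equiv.Perm.mul_apply, hcomm τ hτ, hcomm σ hσ, hw]
      rw [Equiv.Perm.mul_apply]
      ring), hsumO] at h1
    have h2 : ∑ j, c (f j) * w ((σ * τ) (f j)) = 0 := by linarith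
    rw [← h2]
    refine Finset.sum_congr rfl fun j _ => ?_
    rw [Equiv.Perm.mul_apply, hτa]
  have hcf : (fun b => c (f b)) ≠ 0 := by
    intro h0
    apply hc0
    funext x
    by_cases hx : x ∈ O
    · obtain ⟨i, -, rfl⟩ := Finset.mem_image.1 hx
      exact congrFun h0 i
    · have h1 : bar x ∈ O := by
        rw [hO, hbar]
        exact hx
      obtain ⟨i, -, hi⟩ := Finset.mem_image.1 h1
      have h2 : c (bar x) = 0 := by
        rw [← hi]
        exact congrFun h0 i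
      rw [hc.1] at h2
      exact neg_eq_zero.1 h2
  obtain ⟨χ, hχ⟩ := exists_char (fun b => c (f b)) hcf
  have hchar : ∀ σ ∈ P, ∑ d, (w (σ (f d)) : ℂ) * χ d = 0 := fun σ hσ =>
    char_corr (fun b => c (f b)) (fun b => w (σ (f b))) χ hχ (hcorr σ hσ)
  refine ⟨O, hO, ?_⟩
  rcases char_cases hB χ with h1 | ⟨κ, hκ, h1⟩ | ⟨h, hh, h1⟩
  · left
    have h2 := hchar 1 (one_mem _)
    simp only [h1, mul_one, Equiv.Perm.one_apply] at h2
    rw [hsumO]
    exact_mod_cast h2
  · right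
    obtain ⟨u, hu⟩ := h1 (fun b => w (f b)) (hchar 1 (one_mem _))
    have e1 : ∀ i : Fin ℓ, Nonempty (Fin ℓ ≃ {b // κ b = i}) := fun i => by
      rw [← Fintype.card_eq, hκ i, Fintype.card_fin]
    let e2 : ∀ i : Fin ℓ, Fin ℓ ≃ {b // κ b = i} := fun i => (e1 i).some
    let e3 : Fin ℓ × Fin ℓ ≃ B := (Equiv.sigmaEquivProd (Fin ℓ) (Fin ℓ)).symm.trans
      ((Equiv.sigmaCongrRight e2).trans (Equiv.sigmaFiberEquiv κ))
    have e3a : ∀ i j, e3 (i, j) = (e2 i j : B) := fun i j => rfl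
    let e4 : B ≃ O := Equiv.ofBijective (fun b => (⟨f b, Finset.mem_image_of_mem _
      (Finset.mem_univ b)⟩ : O)) ⟨fun a b h => hf (congrArg Subtype.val h), fun x => by
        obtain ⟨b, -, hb⟩ := Finset.mem_image.1 x.2
        exact ⟨b, Subtype.ext hb⟩⟩
    have e4a : ∀ b, ((e4 b : O) : X) = f b := fun b => rfl
    refine ⟨e3.trans e4, u, fun i => ?_⟩
    rw [← hu i, ← Equiv.sum_comp (e2 i)]
    refine Finset.sum_congr rfl fun j _ => ?_
    rw [Equiv.trans_apply, e4a, e3a]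
  · exfalso
    apply hh
    have h2 : f (0 + h) = f 0 := by
      apply hnc
      intro σ hσ
      exact h1 (fun b => w (σ (f b))) (hchar σ hσ) 0
    have h3 := hf h2
    rw [zero_add] at h3
    exact h3

end Pool.Agent.H21.NQ
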