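import Pool.Agent.H21.NQ.ModL
import Pool.Agent.H21.NQ.PrimeSq
import Pool.Agent.H21.NQ.EqSum

/-!
# Slopes without relations
-/

set_option autoImplicit false
set_option linter.unusedSectionVars false

universe u

namespace Pool.Agent.H21.NQ

open MulAction Module Pool.Agent.H21.NP Pool.Agent.H21.TC

/-- Signed sums that are not divisible by the prime. -/
theorem noRel_of_mod {g : ℕ} (ℓ : ℕ) [hℓ : Fact ℓ.Prime] {k : ℕ} (hg : g = ℓ ^ k) (m : Fin g → ℚ)
    (t : ℚ) (ht : t ≠ 0) (n : Fin g → ℤ) (hm : ∀ j, m j = t * n j)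
    (hn : ∀ ε : Fin g → ℤˣ, ¬ (ℓ : ℤ) ∣ ∑ j, (ε j : ℤ) * n j) : NoRel m := by
  classical
  intro X _ P bar w hbar hb hcomm htr hw hmul hcard _ c hc
  -- integral values
  have hint : ∀ x, ∃ z : ℤ, w x = t * z := by
    intro x
    have h1 : |w x| ∈ (Finset.univ : Finset X).val.map (fun x => |w x|) :=
      Multiset.mem_map_of_mem _ (Finset.mem_univ x)
    rw [hmul, Multiset.mem_nsmul, Multiset.mem_map] at h1
    obtain ⟨-, j, -, hj⟩ := h1
    rcases abs_eq_abs.1 hj with h2 | h2
    · exact ⟨n j, by rw [← h2, hm]⟩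
    · exact ⟨- n j, by
        rw [hm] at h2
        push_cast
        linarith⟩
  choose w' hw' using hint
  have hw'odd : ∀ x, w' (bar x) = - w' x := by
    intro x
    have h1 : t * (w' (bar x) : ℚ) = t * (-w' x : ℤ) := by
      rw [← hw', hw, hw']
      push_cast
      ring
    exact_mod_cast mul_left_cancel₀ ht h1
  obtain ⟨N, c', hN, hc'⟩ := clear_denom c
  have hN' : (N : ℚ) ≠ 0 := by exact_mod_cast hN
  have hc'0 : c' = 0 := by
    refine mod_contra hbar hb hcomm htr (ℓ := ℓ) (k := k) (by rw [hcard, hg]) w' hw'odd ?_ c' ?_ ?_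
    · intro O hO hdvd
      obtain ⟨e, he⟩ := exists_enum hbar hw m hmul hO
      apply hn (fun j => if w (e j) = m j then 1 else -1)
      have h1 : ∑ x ∈ O, w' x = ∑ j, (((if w (e j) = m j then 1 else -1 : ℤˣ) : ℤ)) * n j := by
        rw [← Finset.sum_coe_sort O w', ← Equiv.sum_comp e]
        refine Finset.sum_congr rfl fun j _ => ?_
        by_cases h2 : w (e j) = m j
        · rw [if_pos h2, Units.val_one, one_mul]
          rw [hw', hm] at h2
          exact_mod_cast mul_left_cancel₀ ht h2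
        · rw [if_neg h2]
          have h3 := (he j).resolve_left h2
          rw [hw', hm, ← mul_neg] at h3
          have h4 := mul_left_cancel₀ ht h3
          have h5 : w' (e j) = - n j := by exact_mod_cast h4
          rw [h5]
          simp
      rw [← h1]
      exact hdvd
    · intro x
      have h1 : (c' (bar x) : ℚ) = (-c' x : ℤ) := by
        rw [hc', hc.1]
        push_cast
        rw [hc']
        ring
      exact_mod_cast h1
    · intro σ hσ
      have h1 : t * ((∑ x, c' x * w' (σ x) : ℤ) : ℚ) = 0 := by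
        push_cast
        rw [Finset.mul_sum]
        have h2 : ∀ x, t * ((c' x : ℚ) * w' (σ x)) = N * (c x * w (σ x)) := by
          intro x
          rw [hc', hw']
          ring
        rw [Finset.sum_congr rfl fun x _ => h2 x, ← Finset.mul_sum, hc.2 σ hσ, mul_zero]
      exact_mod_cast (mul_eq_zero.1 h1).resolve_left ht
  funext x
  have h1 := hc' x
  rw [hc'0] at h1
  simp only [Pi.zero_apply, Int.cast_zero] at h1
  exact (mul_eq_zero.1 h1.symm).resolve_left hN'

/-- The square of an odd prime. -/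
theorem noRel_sq {g : ℕ} (ℓ : ℕ) [hℓ : Fact ℓ.Prime] (hℓ2 : ℓ ≠ 2) (hg : g = ℓ ^ 2)
    (s : Fin g → ℚ) (h1 : ¬ ZeroSum s) (h2 : ¬ EqualSums ℓ ℓ s) : NoRel (fun j => 1 - 2 * s j) := by
  classical
  intro X _ P bar w hbar hb hcomm htr hw hmul hcard hnc c hc
  by_contra hc0
  have hcase := sq_cases hbar hb hcomm htr hw hℓ2 (by rw [hcard, hg]) hnc hc hc0
  obtain ⟨O, hO, hcase⟩ := hcase
  obtain ⟨b, hb'⟩ := exists_enum hbar hw (fun j => 1 - 2 * s j) hmul hO
  let ε : Fin g → ℤˣ := fun i => if w (b i) = 1 - 2 * s i then 1 else -1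
  have hε : ∀ i, ((ε i : ℤ) : ℚ) * (1 - 2 * s i) = w (b i) := by
    intro i
    simp only [ε]
    by_cases h4 : w (b i) = 1 - 2 * s i
    · simp only [if_pos h4]
      rw [h4]
      simp
    · simp only [if_neg h4]
      rw [(hb' i).resolve_left h4]
      simp
  rcases hcase with hsum | ⟨E, u, hu⟩
  · apply h1
    refine ⟨ε, ?_⟩
    rw [← hsum, ← Finset.sum_coe_sort O w, ← Equiv.sum_comp b]
    exact Finset.sum_congr rfl fun i _ => hε i
  · apply h2
    refine ⟨E.trans b.symm, ε, u, fun i => ?_⟩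
    rw [← hu i]
    refine Finset.sum_congr rfl fun j _ => ?_
    rw [hε, Equiv.trans_apply, Equiv.apply_symm_apply]

variable (p : ℕ) [Fact p.Prime]

theorem rigid_of_noRel (Ω : Type u) [Field Ω] [IsAlgClosed Ω] [CharZero Ω] {g : ℕ} (s : Fin g → ℚ)
    (h : (∃ j, s j ≠ 1 / 2) → NoRel (fun j => 1 - 2 * s j)) : Rigid Ω p s := by
  intro F _ _ _ a π ha hπ hgen hsl
  exact onPowers_of_onlyLefschetz Ω _ π (onlyLefschetz_of_noRel p Ω a ha π hπ hgen s hsl h)

end Pool.Agent.H21.NQ
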