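import Pool.Agent.H21.NQ.NoRel
import Pool.Agent.H21.NP.Quat

/-!
# Odd sums, and the slopes `0`, `1 / 2`, `1`
-/

set_option autoImplicit false
set_option linter.unusedSectionVars false

universe u

namespace Pool.Agent.H21.NQ

open MulAction Module Pool.Agent.H21.NP Pool.Agent.H21.TC

/-- The differences `1 - 2 s j` are proportional to integers with an odd sum. -/
def OddSum {g : ℕ} (s : Fin g → ℚ) : Prop :=
  ∃ (t : ℚ) (n : Fin g → ℤ), (∀ j, 1 - 2 * s j = t * n j) ∧ Odd (∑ j, n j)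

/-- The number of the pairs of slopes that are different from `1 / 2`. For the slopes `0`, `1 / 2`
and `1` this is the `p`-rank, divided by the multiplicity. -/
def pRank {g : ℕ} (s : Fin g → ℚ) : ℕ := (Finset.univ.filter fun j => s j ≠ 1 / 2).card

variable {g : ℕ} {s : Fin g → ℚ}

theorem odd_signed (n : Fin g → ℤ) (h : Odd (∑ j, n j)) (ε : Fin g → ℤˣ) :
    Odd (∑ j, (ε j : ℤ) * n j) := by
  rw [← Int.not_even_iff_odd] at h ⊢
  intro h1
  apply h
  have h2 : ∀ j, Even ((ε j : ℤ) * n j - n j) := by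
    intro j
    rcases Int.units_eq_one_or (ε j) with h3 | h3
    · rw [h3]
      simp
    · rw [h3]
      refine ⟨- n j, ?_⟩
      push_cast
      ring
  have h3 : Even (∑ j, ((ε j : ℤ) * n j - n j)) := Finset.even_sum _ fun j _ => h2 j
  rw [Finset.sum_sub_distrib] at h3
  have h4 := h1.sub h3
  rwa [sub_sub_cancel] at h4

theorem not_zeroSum_of_odd (hs : ∃ j, s j ≠ 1 / 2) (h : OddSum s) : ¬ ZeroSum s := by
  obtain ⟨t, n, hn, hodd⟩ := h
  rintro ⟨ε, hε⟩
  have ht : t ≠ 0 := by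
    intro h0
    obtain ⟨j, hj⟩ := hs
    apply hj
    have h1 := hn j
    rw [h0, zero_mul] at h1
    linarith
  have h1 := odd_signed n hodd ε
  have h2 : t * ((∑ j, (ε j : ℤ) * n j : ℤ) : ℚ) = 0 := by
    rw [← hε]
    push_cast
    rw [Finset.mul_sum]
    refine Finset.sum_congr rfl fun j _ => ?_
    rw [hn]
    ring
  have h3 : (∑ j, (ε j : ℤ) * n j : ℤ) = 0 := by
    exact_mod_cast (mul_eq_zero.1 h2).resolve_left ht
  rw [h3] at h1
  exact (Int.not_odd_zero h1).elim

theorem rigid_of_prime_odd (Ω : Type u) [Field Ω] [IsAlgClosed Ω] [CharZero Ω] (p : ℕ)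
    [Fact p.Prime] (hg : g.Prime) (h : OddSum s) : Rigid Ω p s := by
  intro F _ _ _ a π ha hπ hgen hsl
  refine onPowers_of_onlyLefschetz Ω _ π (onlyLefschetz_of_cond p Ω a ha π hπ hgen s hsl
    (Or.inl hg) ?_)
  by_cases hs : ∃ j, s j ≠ 1 / 2
  · refine Or.inr (Or.inr ⟨not_zeroSum_of_odd hs h, ?_⟩)
    rintro ⟨e, -⟩
    have h1 := Fintype.card_congr e
    rw [Fintype.card_fin, Fintype.card_fin] at h1
    rw [← h1] at hg
    exact absurd hg (by decide)
  · push Not at hs
    exact Or.inl hs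

theorem rigid_of_two_pow (Ω : Type u) [Field Ω] [IsAlgClosed Ω] [CharZero Ω] (p : ℕ)
    [Fact p.Prime] {k : ℕ} (hg : g = 2 ^ k) (h : OddSum s) : Rigid Ω p s := by
  refine rigid_of_noRel p Ω s fun hs => ?_
  obtain ⟨t, n, hn, hodd⟩ := h
  have ht : t ≠ 0 := by
    intro h0
    obtain ⟨j, hj⟩ := hs
    apply hj
    have h1 := hn j
    rw [h0, zero_mul] at h1
    linarith
  have : Fact (Nat.Prime 2) := ⟨Nat.prime_two⟩
  refine noRel_of_mod 2 hg _ t ht n hn fun ε h1 => ?_
  have h2 := odd_signed n hodd ε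
  rw [← Int.not_even_iff_odd] at h2
  exact h2 (even_iff_two_dvd.2 (by exact_mod_cast h1))

/-- The slopes are `0`, `1 / 2` and `1`. -/
theorem exists_int (hs : ∀ j, s j = 0 ∨ s j = 1 / 2 ∨ s j = 1) :
    ∃ n : Fin g → ℤ, (∀ j, 1 - 2 * s j = n j) ∧ (∀ j, |n j| = if s j ≠ 1 / 2 then 1 else 0) := by
  have h : ∀ j, ∃ n : ℤ, 1 - 2 * s j = n ∧ |n| = if s j ≠ 1 / 2 then 1 else 0 := by
    intro j
    rcases hs j with h | h | h
    · refine ⟨1, by rw [h]; norm_num, ?_⟩
      rw [h]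
      norm_num
    · refine ⟨0, by rw [h]; norm_num, ?_⟩
      rw [h]
      norm_num
    · refine ⟨-1, by rw [h]; norm_num, ?_⟩
      rw [h]
      norm_num
  choose n hn using h
  exact ⟨n, fun j => (hn j).1, fun j => (hn j).2⟩

theorem sum_abs_eq {n : Fin g → ℤ} (hn : ∀ j, |n j| = if s j ≠ 1 / 2 then 1 else 0) :
    ∑ j, |n j| = pRank s := by
  classical
  rw [pRank, Finset.card_filter]
  push_cast
  exact Finset.sum_congr rfl fun j _ => hn j

theorem odd_sum_iff {n : Fin g → ℤ} (hn : ∀ j, |n j| = if s j ≠ 1 / 2 then 1 else 0) :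
    Odd (∑ j, n j) ↔ Odd (pRank s) := by
  have h1 : Even (∑ j, n j - ∑ j, |n j|) := by
    rw [← Finset.sum_sub_distrib]
    refine Finset.even_sum _ fun j _ => ?_
    rcases abs_choice (n j) with h | h
    · rw [h, sub_self]
      exact Even.zero
    · rw [h]
      exact ⟨n j, by ring⟩
  rw [sum_abs_eq hn] at h1
  have h2 : Odd (pRank s) ↔ Odd ((pRank s : ℕ) : ℤ) := (Int.odd_coe_nat _).symm
  rw [h2]
  rcases Int.even_or_odd (∑ j, n j) with h3 | h3
  · have h4 := h3.sub h1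
    rw [sub_sub_cancel] at h4
    constructor
    · intro h5
      exact (Int.not_even_iff_odd.2 h5 h3).elim
    · intro h5
      exact (Int.not_even_iff_odd.2 h5 h4).elim
  · refine ⟨fun _ => ?_, fun _ => h3⟩
    have h4 := h3.sub_even h1
    rwa [sub_sub_cancel] at h4

theorem oddSum_of_pRank (hs : ∀ j, s j = 0 ∨ s j = 1 / 2 ∨ s j = 1) (h : Odd (pRank s)) :
    OddSum s := by
  obtain ⟨n, hn, hn'⟩ := exists_int hs
  exact ⟨1, n, fun j => by rw [hn, one_mul], (odd_sum_iff hn').2 h⟩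

/-- The `p`-rank is odd and small. -/
theorem noRel_of_small (ℓ : ℕ) [hℓ : Fact ℓ.Prime] {k : ℕ} (hg : g = ℓ ^ k)
    (hs : ∀ j, s j = 0 ∨ s j = 1 / 2 ∨ s j = 1) (hf : Odd (pRank s)) (hlt : pRank s < ℓ) :
    NoRel (fun j => 1 - 2 * s j) := by
  obtain ⟨n, hn, hn'⟩ := exists_int hs
  refine noRel_of_mod ℓ hg _ 1 one_ne_zero n (fun j => by
    rw [hn, one_mul]) fun ε h1 => ?_
  have h2 := odd_signed n ((odd_sum_iff hn').2 hf) ε
  have h3 : |∑ j, (ε j : ℤ) * n j| ≤ pRank s := by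
    refine (Finset.abs_sum_le_sum_abs _ _).trans ?_
    rw [← sum_abs_eq hn']
    refine Finset.sum_le_sum fun j _ => ?_
    rw [abs_mul]
    rcases Int.units_eq_one_or (ε j) with h3 | h3
    · rw [h3]
      simp
    · rw [h3]
      simp
  have h4 : ∑ j, (ε j : ℤ) * n j = 0 := by
    apply Int.eq_zero_of_abs_lt_dvd h1
    have h5 : (pRank s : ℤ) < ℓ := by exact_mod_cast hlt
    omega
  rw [h4] at h2
  exact (Int.not_odd_zero h2).elim

/-- An even number of slopes different from `1 / 2`. -/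
theorem zeroSum_of_even (hs : ∀ j, s j = 0 ∨ s j = 1 / 2 ∨ s j = 1) (h : Even (pRank s)) :
    ZeroSum s := by
  classical
  obtain ⟨n, hn, hn'⟩ := exists_int hs
  obtain ⟨d, hd⟩ := h
  obtain ⟨A, hA, hAcard⟩ := Finset.exists_subset_card_eq
    (show d ≤ (Finset.univ.filter fun j => s j ≠ 1 / 2).card by
      rw [← pRank, hd]
      omega)
  refine ⟨fun j => if j ∈ A then (if n j = 1 then 1 else -1) else (if n j = 1 then -1 else 1), ?_⟩
  have h1 : ∀ j, ((((if j ∈ A then (if n j = 1 then 1 else -1) else (if n j = 1 then -1 else 1)) :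
      ℤˣ) : ℤ) : ℚ) * (1 - 2 * s j) =
      (if j ∈ A then 2 else 0) - (if s j ≠ 1 / 2 then 1 else 0) := by
    intro j
    rw [hn j]
    have h2 := hn' j
    by_cases hj : s j = 1 / 2
    · have h3 : j ∉ A := fun h3 => (Finset.mem_filter.1 (hA h3)).2 hj
      rw [if_neg (not_not.2 hj), abs_eq_zero] at h2
      rw [if_neg h3, if_neg (not_not.2 hj), h2]
      simp [h3]
    · rw [if_pos hj] at h2
      rw [if_pos hj]
      rcases (abs_eq (by norm_num : (0 : ℤ) ≤ 1)).1 h2 with h3 | h3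
      · by_cases h4 : j ∈ A
        · simp only [h3, if_true, h4]
          norm_num
        · simp only [h3, if_true, h4, if_false]
          norm_num
      · by_cases h4 : j ∈ A
        · simp only [h3, h4, if_true]
          norm_num
        · simp only [h3, h4, if_false]
          norm_num
  rw [Finset.sum_congr rfl fun j _ => h1 j, Finset.sum_sub_distrib, Finset.sum_ite_mem,
    Finset.univ_inter, Finset.sum_const, hAcard]
  have h5 : (∑ j, if s j ≠ 1 / 2 then (1 : ℚ) else 0) = pRank s := by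
    rw [pRank, Finset.card_filter]
    push_cast
    rfl
  rw [h5, hd]
  push_cast
  rw [nsmul_eq_mul]
  ring

end Pool.Agent.H21.NQ
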