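import Mathlib

/-!
# Regular abelian subgroups of transitive groups of degree `ℓ ^ 2`
-/

set_option autoImplicit false
set_option linter.unusedSectionVars false

namespace Pool.Agent.H21.NQ

open MulAction

/-- A transitive `ℓ`-group of degree `ℓ ^ 2` contains a transitive abelian group. -/
theorem exists_abelian {O : Type*} [Finite O] {ℓ : ℕ} [hℓ : Fact ℓ.Prime]
    (hO : Nat.card O = ℓ ^ 2) (Q : Subgroup (Equiv.Perm O)) (hQ : IsPGroup ℓ Q)
    (htr : ∀ x y : O, ∃ σ ∈ Q, σ x = y) :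
    ∃ A : Subgroup (Equiv.Perm O), A ≤ Q ∧ (∀ a ∈ A, ∀ b ∈ A, a * b = b * a) ∧
      ∀ x y : O, ∃ σ ∈ A, σ x = y := by
  classical
  have hℓ1 : 1 < ℓ := hℓ.out.one_lt
  have hℓ2 : ℓ < ℓ ^ 2 := by nlinarith
  have hOnt : Nontrivial O := by
    rw [← Finite.one_lt_card_iff_nontrivial, hO]
    omega
  have hQnt : Nontrivial Q := by
    obtain ⟨x, y, hxy⟩ := exists_pair_ne O
    obtain ⟨σ, hσ, h⟩ := htr x y
    refine ⟨⟨σ, hσ⟩, 1, ?_⟩
    intro h1
    have h2 : σ = 1 := congrArg Subtype.val h1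
    rw [h2] at h
    exact hxy h
  have hQfin : Finite Q := inferInstance
  have hcent : Nontrivial (Subgroup.center Q) := hQ.center_nontrivial
  obtain ⟨⟨z, hz⟩, hz1⟩ := exists_ne (1 : Subgroup.center Q)
  have hzQ : (z : Equiv.Perm O) ∈ Q := z.2
  have hz1' : (z : Equiv.Perm O) ≠ 1 := by
    intro h
    apply hz1
    exact Subtype.ext (Subtype.ext h)
  have hzc : ∀ σ ∈ Q, σ * (z : Equiv.Perm O) = z * σ := by
    intro σ hσ
    have h := Subgroup.mem_center_iff.1 hz ⟨σ, hσ⟩
    exact congrArg Subtype.val h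
  have hzfix : ∀ x, (z : Equiv.Perm O) x ≠ x := by
    intro x hx
    apply hz1'
    ext y
    obtain ⟨σ, hσ, rfl⟩ := htr x y
    have h := congrArg (fun τ : Equiv.Perm O => τ x) (hzc σ hσ)
    simp only [Equiv.Perm.mul_apply] at h
    rw [← h, hx]
    rfl
  obtain ⟨y⟩ : Nonempty O := inferInstance
  let Z : Subgroup (Equiv.Perm O) := Subgroup.zpowers (z : Equiv.Perm O)
  have hZQ : Z ≤ Q := by
    rw [Subgroup.zpowers_le]
    exact hzQ
  have hsub : ∀ B : Subgroup (Equiv.Perm O), B ≤ Q → IsPGroup ℓ B := fun B hB =>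
    hQ.to_le hB
  have htrans : ∀ B : Subgroup (Equiv.Perm O), ℓ ^ 2 ≤ Nat.card (orbit B y) →
      ∀ x x' : O, ∃ σ ∈ B, σ x = x' := by
    intro B hB
    have h1 : orbit B y = Set.univ := by
      apply Set.eq_of_subset_of_ncard_le (Set.subset_univ _) _ (Set.toFinite _)
      rw [Set.ncard_univ, hO, ← Nat.card_coe_set_eq]
      exact hB
    intro x x'
    have h2 : x ∈ orbit B y := by rw [h1]; trivial
    have h3 : x' ∈ orbit B y := by rw [h1]; trivial
    obtain ⟨a, rfl⟩ := h2
    obtain ⟨b, rfl⟩ := h3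
    refine ⟨b * a⁻¹, mul_mem b.2 (inv_mem a.2), ?_⟩
    change (((b : Equiv.Perm O) * (a : Equiv.Perm O)⁻¹) * (a : Equiv.Perm O)) y = _
    rw [inv_mul_cancel_right]
    rfl
  have hZcard : ℓ ≤ Nat.card (orbit Z y) := by
    obtain ⟨n, hn⟩ := (hsub Z hZQ).card_orbit y
    have h1 : n ≠ 0 := by
      rintro rfl
      rw [pow_zero, Nat.card_eq_one_iff_unique] at hn
      obtain ⟨hs, -⟩ := hn
      have h2 : (⟨(z : Equiv.Perm O) y, ⟨⟨z, Subgroup.mem_zpowers _⟩, rfl⟩⟩ : orbit Z y) =
          ⟨y, mem_orbit_self y⟩ := Subsingleton.elim _ _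
      exact hzfix y (congrArg Subtype.val h2)
    rw [hn]
    exact Nat.le_self_pow h1 ℓ
  by_cases hall : ∀ t ∈ Q, t y ∈ orbit Z y
  · refine ⟨Z, hZQ, ?_, ?_⟩
    · rintro a ⟨m, rfl⟩ b ⟨n, rfl⟩
      exact (Commute.zpow_zpow_self _ m n).eq
    · apply htrans
      have h1 : orbit Z y = Set.univ := by
        ext x
        refine ⟨fun _ => trivial, fun _ => ?_⟩
        obtain ⟨t, ht, rfl⟩ := htr y x
        exact hall t ht
      rw [Nat.card_coe_set_eq, h1, Set.ncard_univ, hO]
  · push Not at hall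
    obtain ⟨t, ht, hty⟩ := hall
    let A : Subgroup (Equiv.Perm O) := Subgroup.closure {(z : Equiv.Perm O), t}
    have hAQ : A ≤ Q := by
      rw [Subgroup.closure_le]
      rintro x (rfl | rfl)
      · exact hzQ
      · exact ht
    have hcomm : ∀ a ∈ ({(z : Equiv.Perm O), t} : Set (Equiv.Perm O)),
        ∀ b ∈ ({(z : Equiv.Perm O), t} : Set (Equiv.Perm O)), a * b = b * a := by
      rintro a (rfl | rfl) b (rfl | rfl)
      · rfl
      · exact (hzc _ ht).symm
      · exact hzc _ ht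
      · rfl
    have hA : ∀ a ∈ A, ∀ b ∈ A, a * b = b * a := by
      intro a ha b hb
      have h1 : A ≤ Subgroup.centralizer A :=
        Subgroup.closure_le_centralizer_centralizer _ |>.trans (by
          apply Subgroup.centralizer_le
          intro x hx
          rw [SetLike.mem_coe] at hx
          have h2 : A ≤ Subgroup.centralizer {(z : Equiv.Perm O), t} := by
            rw [Subgroup.closure_le]
            intro u hu
            rw [SetLike.mem_coe, Subgroup.mem_centralizer_iff]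
            intro v hv
            exact hcomm v hv u hu
          exact h2 hx)
      exact (Subgroup.mem_centralizer_iff.1 (h1 hb) a ha)
    refine ⟨A, hAQ, hA, ?_⟩
    apply htrans
    obtain ⟨m, hm⟩ := (hsub A hAQ).card_orbit y
    have hZA : orbit Z y ⊆ orbit A y := by
      rintro _ ⟨a, rfl⟩
      refine ⟨⟨a, ?_⟩, rfl⟩
      have h1 : Z ≤ A := by
        rw [Subgroup.zpowers_le]
        exact Subgroup.subset_closure (Or.inl rfl)
      exact h1 a.2
    have hlt : Nat.card (orbit Z y) < Nat.card (orbit A y) := by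
      rw [Nat.card_coe_set_eq, Nat.card_coe_set_eq]
      apply Set.ncard_lt_ncard _ (Set.toFinite _)
      refine ⟨hZA, fun h => hty (h ?_)⟩
      exact ⟨⟨t, Subgroup.subset_closure (Or.inr rfl)⟩, rfl⟩
    rw [hm] at hlt ⊢
    have h1 : ℓ ^ 1 < ℓ ^ m := by
      rw [pow_one]
      exact hZcard.trans_lt hlt
    have h2 : 1 < m := (Nat.pow_lt_pow_iff_right hℓ1).1 h1
    exact Nat.pow_le_pow_right (by omega) h2

end Pool.Agent.H21.NQ
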