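import Pool.Agent.H21.NQ.Reg

/-!
# Regular abelian subgroups: groups of permutations of `2 ℓ ^ 2` points
-/

set_option autoImplicit false
set_option linter.unusedSectionVars false

universe v

namespace Pool.Agent.H21.NQ

open MulAction

/-- The orbits of a Sylow subgroup. -/
theorem exists_sylow_orbit {X : Type*} [Fintype X] (P : Subgroup (Equiv.Perm X))
    (htr : ∀ x y : X, ∃ σ ∈ P, σ x = y) {ℓ : ℕ} [hℓ : Fact ℓ.Prime] (hℓ2 : ℓ ≠ 2) {k : ℕ}
    (hcard : Fintype.card X = 2 * ℓ ^ k) :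
    ∃ S : Subgroup (Equiv.Perm X), S ≤ P ∧ IsPGroup ℓ S ∧ ∀ y : X, Nat.card (orbit S y) = ℓ ^ k := by
  classical
  have hℓ0 : 0 < ℓ := hℓ.out.pos
  have hℓ1 : 1 < ℓ := hℓ.out.one_lt
  let S₀ : Sylow ℓ P := default
  let S : Subgroup (Equiv.Perm X) := (S₀ : Subgroup P).map P.subtype
  have hSP : S ≤ P := by
    rintro _ ⟨σ, -, rfl⟩
    exact σ.2
  have hS : IsPGroup ℓ S := S₀.isPGroup'.map _
  have hSc : Nat.card S = ℓ ^ (Nat.card P).factorization ℓ := by
    rw [← S₀.card_eq_multiplicity]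
    exact (Nat.card_congr (Subgroup.equivMapOfInjective _ _ P.subtype_injective).toEquiv).symm
  refine ⟨S, hSP, hS, fun y => ?_⟩
  obtain ⟨m, hm⟩ := hS.card_orbit y
  have h1 : Nat.card (orbit S y) * Nat.card (stabilizer S y) = Nat.card S := by
    rw [← Nat.card_prod]
    exact Nat.card_congr (orbitProdStabilizerEquivGroup S y)
  have h2 : Nat.card (orbit P y) * Nat.card (stabilizer P y) = Nat.card P := by
    rw [← Nat.card_prod]
    exact Nat.card_congr (orbitProdStabilizerEquivGroup P y)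
  have h3 : Nat.card (orbit P y) = 2 * ℓ ^ k := by
    have h4 : orbit P y = Set.univ := by
      ext x
      refine ⟨fun _ => trivial, fun _ => ?_⟩
      obtain ⟨σ, hσ, rfl⟩ := htr y x
      exact ⟨⟨σ, hσ⟩, rfl⟩
    rw [← hcard, ← Nat.card_eq_fintype_card, Nat.card_coe_set_eq, h4, Set.ncard_univ]
  -- the stabilizers
  let ι : stabilizer S y →* stabilizer P y :=
    { toFun := fun s => ⟨⟨(s : S), hSP (s : S).2⟩, s.2⟩
      map_one' := rfl
      map_mul' := fun _ _ => rfl }
  have hι : Function.Injective ι := by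
    intro a b hab
    have h4 : ((a : S) : Equiv.Perm X) = ((b : S) : Equiv.Perm X) :=
      congrArg (fun z : stabilizer P y => ((z : P) : Equiv.Perm X)) hab
    exact Subtype.ext (Subtype.ext h4)
  have h5 : Nat.card (stabilizer S y) ∣ Nat.card (stabilizer P y) :=
    Subgroup.card_dvd_of_injective ι hι
  set H := Nat.card (stabilizer P y) with hH
  have hH0 : H ≠ 0 := Nat.card_pos.ne'
  have h6 : Nat.card (stabilizer S y) ∣ ℓ ^ (Nat.card P).factorization ℓ := by
    rw [← hSc, ← h1]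
    exact Dvd.intro_left _ rfl
  obtain ⟨n, -, hn⟩ := (Nat.dvd_prime_pow hℓ.out).1 h6
  rw [hm, hn, hSc, ← pow_add] at h1
  have hv := Nat.pow_right_injective hℓ.out.two_le h1
  have h7 : (Nat.card P).factorization ℓ = k + H.factorization ℓ := by
    rw [← h2, h3, Nat.factorization_mul (by positivity) hH0, Nat.factorization_mul (by norm_num)
      (by positivity), hℓ.out.factorization_pow, Nat.prime_two.factorization]
    simp only [Finsupp.add_apply, Finsupp.single_apply, if_true]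
    rw [if_neg (Ne.symm hℓ2), zero_add]
  rw [hn] at h5
  have h8 : n ≤ H.factorization ℓ := (hℓ.out.pow_dvd_iff_le_factorization hH0).1 h5
  have hkm : k ≤ m := by omega
  have h9 : Nat.card (orbit S y) ≤ 2 * ℓ ^ k := by
    rw [← hcard, ← Nat.card_eq_fintype_card]
    exact Nat.card_le_card_of_injective _ Subtype.val_injective
  rw [hm] at h9 ⊢
  congr 1
  by_contra hne
  have h10 : k + 1 ≤ m := by omega
  have h11 : ℓ ^ (k + 1) ≤ ℓ ^ m := Nat.pow_le_pow_right hℓ0 h10
  have h12 : ℓ ^ k * ℓ ≤ ℓ ^ k * 2 := by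
    rw [← pow_succ, mul_comm _ 2]
    exact h11.trans h9
  have h13 := Nat.le_of_mul_le_mul_left h12 (by positivity)
  omega

/-- A regular action of an abelian group. -/
theorem exists_regular {X : Type v} [Fintype X] (P : Subgroup (Equiv.Perm X))
    (htr : ∀ x y : X, ∃ σ ∈ P, σ x = y) {ℓ : ℕ} [hℓ : Fact ℓ.Prime] (hℓ2 : ℓ ≠ 2)
    (hcard : Fintype.card X = 2 * ℓ ^ 2) :
    ∃ (B : Type v) (_ : AddCommGroup B) (_ : Fintype B) (f : B → X), Fintype.card B = ℓ ^ 2 ∧
      Function.Injective f ∧ ∀ a, ∃ σ ∈ P, ∀ b, σ (f b) = f (a + b) := by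
  classical
  obtain ⟨S, hSP, hS, horb⟩ := exists_sylow_orbit P htr hℓ2 hcard
  obtain ⟨y⟩ : Nonempty X := by
    have h0 : 0 < ℓ := hℓ.out.pos
    exact Fintype.card_pos_iff.1 (by rw [hcard]; positivity)
  let O := orbit S y
  let φ : S →* Equiv.Perm O := MulAction.toPermHom S O
  let Q : Subgroup (Equiv.Perm O) := φ.range
  have hQ : IsPGroup ℓ Q := hS.of_surjective φ.rangeRestrict φ.rangeRestrict_surjective
  have hQtr : ∀ x x' : O, ∃ σ ∈ Q, σ x = x' := by
    intro x x'
    obtain ⟨s, hs⟩ := MulAction.exists_smul_eq S x x'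
    exact ⟨φ s, ⟨s, rfl⟩, hs⟩
  obtain ⟨A, hAQ, hAc, hAtr⟩ := exists_abelian (horb y) Q hQ hQtr
  let _ : CommGroup A := { (inferInstance : Group A) with
    mul_comm := fun a b => Subtype.ext (hAc a a.2 b b.2) }
  let y₀ : O := ⟨y, mem_orbit_self y⟩
  have hAinj : ∀ a b : A, (a : Equiv.Perm O) y₀ = (b : Equiv.Perm O) y₀ → a = b := by
    intro a b hab
    apply Subtype.ext
    ext1 x
    obtain ⟨d, hd, rfl⟩ := hAtr y₀ x
    have h1 := hAc a a.2 d hd
    have h2 := hAc b b.2 d hd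
    have h3 := congrArg (fun τ : Equiv.Perm O => τ y₀) h1
    have h4 := congrArg (fun τ : Equiv.Perm O => τ y₀) h2
    simp only [Equiv.Perm.mul_apply] at h3 h4
    rw [h3, h4, hab]
  let e : A ≃ O := Equiv.ofBijective (fun a => (a : Equiv.Perm O) y₀)
    ⟨fun a b h => hAinj a b h, fun x => by
      obtain ⟨d, hd, rfl⟩ := hAtr y₀ x
      exact ⟨⟨d, hd⟩, rfl⟩⟩
  let _ : Fintype A := Fintype.ofFinite A
  refine ⟨Additive A, inferInstance, inferInstance, fun a => ((a.toMul : Equiv.Perm O) y₀ : O),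
    ?_, ?_, ?_⟩
  · rw [← Nat.card_eq_fintype_card]
    exact (Nat.card_congr (Additive.toMul.trans e)).trans (horb y)
  · intro a b hab
    exact Additive.toMul.injective (hAinj _ _ (Subtype.ext hab))
  · intro a
    obtain ⟨s, hs⟩ := hAQ (a.toMul).2
    refine ⟨s, hSP s.2, fun b => ?_⟩
    have h1 : ((s : Equiv.Perm X) (((b.toMul : Equiv.Perm O) y₀ : O) : X)) =
        ((φ s ((b.toMul : Equiv.Perm O) y₀) : O) : X) := rfl
    rw [h1, hs]
    rfl

end Pool.Agent.H21.NQ
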