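import Pool.Agent.H21.NQ.Reg2
import Pool.Agent.H21.NP.Low

/-!
# Sylow subgroups and sets of representatives
-/

set_option autoImplicit false
set_option linter.unusedSectionVars false

namespace Pool.Agent.H21.NQ

open MulAction Pool.Agent.H21.NP

/-- The orbits of a Sylow subgroup. -/
theorem exists_sylow_orbit_ge {X : Type*} [Fintype X] (P : Subgroup (Equiv.Perm X))
    (htr : ∀ x y : X, ∃ σ ∈ P, σ x = y) {ℓ : ℕ} [hℓ : Fact ℓ.Prime] {k : ℕ}
    (hcard : Fintype.card X = ℓ ^ k) :
    ∃ S : Subgroup (Equiv.Perm X), S ≤ P ∧ IsPGroup ℓ S ∧ ∀ x y : X, ∃ σ ∈ S, σ x = y := by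
  classical
  have hℓ0 : 0 < ℓ := hℓ.out.pos
  have hℓ1 : 1 < ℓ := hℓ.out.one_lt
  let S₀ : Sylow ℓ P := default
  let S : Subgroup (Equiv.Perm X) := (S₀ : Subgroup P).map P.subtype
  have hSP : S ≤ P := by
    rintro _ ⟨σ, -, rfl⟩
    exact σ.2
  have hS : IsPGroup ℓ S := S₀.isPGroup'.map _
  have hSc : Nat.card S = ℓ ^ (Nat.card P).factorization ℓ := by
    rw [← S₀.card_eq_multiplicity]
    exact (Nat.card_congr (Subgroup.equivMapOfInjective _ _ P.subtype_injective).toEquiv).symm
  have key : ∀ y : X, orbit S y = Set.univ := by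
    intro y
    obtain ⟨m, hm⟩ := hS.card_orbit y
    have h1 : Nat.card (orbit S y) * Nat.card (stabilizer S y) = Nat.card S := by
      rw [← Nat.card_prod]
      exact Nat.card_congr (orbitProdStabilizerEquivGroup S y)
    have h2 : Nat.card (orbit P y) * Nat.card (stabilizer P y) = Nat.card P := by
      rw [← Nat.card_prod]
      exact Nat.card_congr (orbitProdStabilizerEquivGroup P y)
    have h3 : Nat.card (orbit P y) = ℓ ^ k := by
      have h4 : orbit P y = Set.univ := by
        ext x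
        refine ⟨fun _ => trivial, fun _ => ?_⟩
        obtain ⟨σ, hσ, rfl⟩ := htr y x
        exact ⟨⟨σ, hσ⟩, rfl⟩
      rw [← hcard, ← Nat.card_eq_fintype_card, Nat.card_coe_set_eq, h4, Set.ncard_univ]
    -- the stabilizers
    let ι : stabilizer S y →* stabilizer P y :=
      { toFun := fun s => ⟨⟨(s : S), hSP (s : S).2⟩, s.2⟩
        map_one' := rfl
        map_mul' := fun _ _ => rfl }
    have hι : Function.Injective ι := by
      intro a b hab
      have h4 : ((a : S) : Equiv.Perm X) = ((b : S) : Equiv.Perm X) :=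
        congrArg (fun z : stabilizer P y => ((z : P) : Equiv.Perm X)) hab
      exact Subtype.ext (Subtype.ext h4)
    have h5 : Nat.card (stabilizer S y) ∣ Nat.card (stabilizer P y) :=
      Subgroup.card_dvd_of_injective ι hι
    set H := Nat.card (stabilizer P y) with hH
    have hH0 : H ≠ 0 := Nat.card_pos.ne'
    have h6 : Nat.card (stabilizer S y) ∣ ℓ ^ (Nat.card P).factorization ℓ := by
      rw [← hSc, ← h1]
      exact Dvd.intro_left _ rfl
    obtain ⟨n, -, hn⟩ := (Nat.dvd_prime_pow hℓ.out).1 h6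
    rw [hm, hn, hSc, ← pow_add] at h1
    have hv := Nat.pow_right_injective hℓ.out.two_le h1
    have h7 : (Nat.card P).factorization ℓ = k + H.factorization ℓ := by
      rw [← h2, h3, Nat.factorization_mul (by positivity) hH0, hℓ.out.factorization_pow]
      simp
    rw [hn] at h5
    have h8 : n ≤ H.factorization ℓ := (hℓ.out.pow_dvd_iff_le_factorization hH0).1 h5
    have hkm : k ≤ m := by omega
    apply Set.eq_of_subset_of_ncard_le (Set.subset_univ _) _ (Set.toFinite _)
    rw [Set.ncard_univ, Nat.card_eq_fintype_card, hcard, ← Nat.card_coe_set_eq, hm]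
    exact Nat.pow_le_pow_right hℓ0 hkm
  refine ⟨S, hSP, hS, fun x y => ?_⟩
  have h1 : y ∈ orbit S x := by rw [key]; trivial
  obtain ⟨s, hs⟩ := h1
  exact ⟨s, s.2, hs⟩

/-- A set of representatives on which an `ℓ`-group is transitive. -/
theorem exists_tr_sylow {X : Type*} [Fintype X] (P : Subgroup (Equiv.Perm X)) {bar : X → X}
    (hbar : ∀ x, bar (bar x) = x) (hb : ∀ x, bar x ≠ x)
    (hcomm : ∀ σ ∈ P, ∀ x, σ (bar x) = bar (σ x))
    (htr : ∀ x y : X, ∃ σ ∈ P, σ x = y) {ℓ : ℕ} [hℓ : Fact ℓ.Prime] {k : ℕ}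
    (hcard : Fintype.card X = 2 * ℓ ^ k) :
    ∃ (S : Subgroup (Equiv.Perm X)) (O : Finset X), S ≤ P ∧ IsPGroup ℓ S ∧ IsTr bar O ∧
      ∀ x ∈ O, ∀ y ∈ O, ∃ σ ∈ S, σ x = y := by
  classical
  have hℓ0 : 0 < ℓ := hℓ.out.pos
  by_cases hℓ2 : ℓ = 2
  · subst hℓ2
    obtain ⟨S, hSP, hS, hStr⟩ := exists_sylow_orbit_ge P htr (ℓ := 2) (k := k + 1) (by
      rw [hcard, pow_succ, mul_comm])
    obtain ⟨O, hO⟩ := exists_tr hbar hb
    exact ⟨S, O, hSP, hS, hO, fun x _ y _ => hStr x y⟩
  · obtain ⟨S, hSP, hS, horb⟩ := exists_sylow_orbit P htr hℓ2 hcard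
    obtain ⟨y⟩ : Nonempty X := Fintype.card_pos_iff.1 (by rw [hcard]; positivity)
    let O : Finset X := (orbit S y).toFinset
    have hOmem : ∀ x, x ∈ O ↔ x ∈ orbit S y := fun x => Set.mem_toFinset
    have hOc : O.card = ℓ ^ k := by
      rw [← horb y, Nat.card_coe_set_eq, Set.ncard_eq_toFinset_card']
    have hOtr : ∀ x ∈ O, ∀ x' ∈ O, ∃ σ ∈ S, σ x = x' := by
      intro x hx x' hx'
      rw [hOmem] at hx hx'
      obtain ⟨a, rfl⟩ := hx
      obtain ⟨b, rfl⟩ := hx'
      refine ⟨b * a⁻¹, mul_mem b.2 (inv_mem a.2), ?_⟩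
      change (((b : Equiv.Perm X) * (a : Equiv.Perm X)⁻¹) * (a : Equiv.Perm X)) y = _
      rw [inv_mul_cancel_right]
      rfl
    have h1 : ∀ x ∈ O, bar x ∉ O := by
      intro x hx hx'
      obtain ⟨t, ht, htx⟩ := hOtr x hx _ hx'
      obtain ⟨n, hn⟩ := (IsPGroup.iff_orderOf.1 hS) ⟨t, ht⟩
      rw [Subgroup.orderOf_mk] at hn
      have hodd : Odd (ℓ ^ n) := (hℓ.out.odd_of_ne_two hℓ2).pow
      obtain ⟨q, hq⟩ := hodd
      have h2 : (t ^ 2) x = x := by
        rw [pow_two, Equiv.Perm.mul_apply, htx, hcomm t (hSP ht), htx, hbar]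
      have h3 : ∀ j : ℕ, ((t ^ 2) ^ j) x = x := by
        intro j
        induction j with
        | zero => rfl
        | succ j ih => rw [pow_succ, Equiv.Perm.mul_apply, h2, ih]
      have h4 : t ^ (2 * q + 1) = 1 := by
        rw [← hq, ← hn]
        exact pow_orderOf_eq_one t
      have h5 := congrArg (fun τ : Equiv.Perm X => τ x) h4
      simp only [Equiv.Perm.one_apply] at h5
      rw [pow_succ', pow_mul, Equiv.Perm.mul_apply, h3, htx] at h5
      exact hb x h5
    have hO : IsTr bar O := by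
      have hbinj : Function.Injective bar := fun a b h => by rw [← hbar a, h, hbar]
      have h2 : Disjoint O (O.image bar) := by
        rw [Finset.disjoint_left]
        intro x hx hx'
        obtain ⟨z, hz, rfl⟩ := Finset.mem_image.1 hx'
        exact h1 z hz hx
      have h3 : O ∪ O.image bar = Finset.univ := by
        rw [← Finset.card_eq_iff_eq_univ, Finset.card_union_of_disjoint h2,
          Finset.card_image_of_injective _ hbinj, hOc, hcard]
        ring
      intro x
      refine ⟨h1 x, fun hx => ?_⟩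
      have h4 : x ∈ O ∪ O.image bar := by rw [h3]; exact Finset.mem_univ _
      rcases Finset.mem_union.1 h4 with h5 | h5
      · exact h5
      · obtain ⟨z, hz, rfl⟩ := Finset.mem_image.1 h5
        rw [hbar] at hx
        exact absurd hz hx
    exact ⟨S, O, hSP, hS, hO, hOtr⟩

end Pool.Agent.H21.NQ
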